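import Pool.Agent.MP_d5eec5_gt.H48.Runs

/-! Consequences of the geometric input for a single word. -/

namespace Pool.Agent.MP_d5eec5_gt.H48

open Finset

variable {I : Wd → ℕ}

theorem Geo.drop1 (h : Geo I) {o : Fin 3} {w : Wd} {p : ℕ} (hw : Valid w) (hs : St o w p 3) :
    I (del 1 p w) + 1 ≤ I w := by
  obtain ⟨κ, -, h2⟩ := h.K o w 1 {p} hw le_rfl (by simpa using hs)
  have := h2 p (mem_singleton_self p)
  omega

theorem Geo.drop (h : Geo I) {o : Fin 3} {p : ℕ} (s : ℕ) : ∀ {w : Wd}, Valid w →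
    St o w p (2 * s + 1) → I (del s p w) + s ≤ I w := by
  induction s with
  | zero => intro w _ _; rw [del_zero]; rfl
  | succ s ih =>
    intro w hw hs
    have h3 : St o w p (2 * 1 + 1) := hs.mono (by omega)
    have a := h.drop1 hw h3
    have b := ih (valid_del hw h3) (st_del (s := 1) hw (hs.mono (by omega)) (by omega))
    rw [del_del hs.1] at b
    omega

theorem Geo.run_le (h : Geo I) {o : Fin 3} {w : Wd} {p l : ℕ} (hw : Valid w) (hs : St o w p l) :
    l ≤ 2 * I w + 2 := by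
  by_contra hc
  have := h.drop (I w + 1) hw (hs.mono (by omega))
  omega

theorem tour (S : Finset ℕ) (κ : ℕ → ℕ → ℕ) (s : ℕ)
    (h : ∀ p ∈ S, ∀ p' ∈ S, p ≠ p' → s ≤ κ p p' + κ p' p) :
    S.card * ((S.card - 1) * s) ≤ 2 * ∑ p ∈ S, ∑ p' ∈ S.erase p, κ p p' := by
  have e : ∑ p ∈ S, ∑ p' ∈ S.erase p, κ p' p = ∑ p ∈ S, ∑ p' ∈ S.erase p, κ p p' :=
    sum_comm' fun x y => by simp only [mem_erase]; tauto
  have : ∑ p ∈ S, (S.card - 1) * s ≤ ∑ p ∈ S, ∑ p' ∈ S.erase p, (κ p p' + κ p' p) := by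
    refine sum_le_sum fun p hp => ?_
    rw [← card_erase_of_mem hp, ← smul_eq_mul]
    exact card_nsmul_le_sum _ _ _ fun q hq => h p hp q (mem_of_mem_erase hq) (ne_of_mem_erase hq).symm
  simp only [sum_add_distrib, e, sum_const, smul_eq_mul] at this
  omega

/-- half of the long runs can be shortened with a large gain -/
theorem Geo.half (h : Geo I) {o : Fin 3} {w : Wd} {s : ℕ} (S : Finset ℕ) (hw : Valid w)
    (hs : 1 ≤ s) (hS : ∀ p ∈ S, St o w p (2 * s + 1)) :
    S.card ≤ 2 * (S.filter fun p => 5 * I (del s p w) + s * S.card ≤ 5 * I w).card := by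
  obtain ⟨κ, h1, h2⟩ := h.K o w s S hw hs hS
  set B := S.filter fun p => ¬ 5 * I (del s p w) + s * S.card ≤ 5 * I w with hB
  have hc := card_filter_add_card_filter_not (s := S)
    (fun p => 5 * I (del s p w) + s * S.card ≤ 5 * I w)
  rw [← hB] at hc
  suffices 2 * B.card ≤ S.card by omega
  rcases B.eq_empty_or_nonempty with hb | hb
  · simp [hb]
  have hBS : B ⊆ S := filter_subset _ _
  have t := tour B κ s fun p hp q hq => h1 p (hBS hp) q (hBS hq)
  obtain ⟨M, hM⟩ : ∃ M, S.card = M + 1 := ⟨S.card - 1, by have := (hb.mono hBS).card_pos; omega⟩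
  obtain ⟨b, hb'⟩ : ∃ b, B.card = b + 1 := ⟨B.card - 1, by have := hb.card_pos; omega⟩
  have u : ∑ p ∈ B, 4 * ∑ p' ∈ B.erase p, κ p p' < ∑ p ∈ B, M * s := by
    refine sum_lt_sum_of_nonempty hb fun p hp => ?_
    have a1 := (mem_filter.1 hp).2
    have a2 := h2 p (hBS hp)
    have a3 := h.drop s hw (hS p (hBS hp))
    have a4 : ∑ p' ∈ B.erase p, κ p p' ≤ ∑ p' ∈ S.erase p, κ p p' :=
      sum_le_sum_of_subset (erase_subset_erase _ hBS)
    rw [hM, mul_add, mul_comm s M] at a1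
    omega
  rw [← mul_sum, sum_const, smul_eq_mul, hb'] at u
  rw [hb', Nat.add_sub_cancel] at t
  have v : (b + 1) * (2 * b * s) < (b + 1) * (M * s) := by nlinarith
  have v2 := Nat.lt_of_mul_lt_mul_right (Nat.lt_of_mul_lt_mul_left v)
  omega

theorem Geo.quad (h : Geo I) {o : Fin 3} {s : ℕ} (hs : 1 ≤ s) (N : ℕ) : ∀ {w : Wd}, Valid w →
    N + 1 ≤ (runs o w (2 * s + 1)).card → (N + 1) * (N * s) ≤ 4 * I w := by
  induction N with
  | zero => intro w _ _; simp
  | succ N ih =>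
    intro w hw hN
    obtain ⟨S, hS, hc⟩ := exists_subset_card_eq hN
    have hS' : ∀ p ∈ S, St o w p (2 * s + 1) := fun p hp => (mem_runs (by omega)).1 (hS hp)
    obtain ⟨κ, h1, h2⟩ := h.K o w s S hw hs hS'
    have t := tour S κ s h1
    obtain ⟨p, hp, hp'⟩ : ∃ p ∈ S, (N + 1) * s ≤ 2 * ∑ p' ∈ S.erase p, κ p p' := by
      refine exists_le_of_sum_le (card_pos.1 (by omega)) ?_
      rw [sum_const, smul_eq_mul, ← mul_sum]
      rwa [hc, Nat.add_sub_cancel, ← hc] at t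
    have a := h2 p hp
    have b := ih (valid_del hw (hS' p hp))
      (by have := runs_del (l := 2 * s + 1) (hS' p hp) (by omega); omega)
    nlinarith

theorem Geo.sq (h : Geo I) {o : Fin 3} {s : ℕ} (hs : 1 ≤ s) {w : Wd} (hw : Valid w) :
    ((runs o w (2 * s + 1)).card - 1) ^ 2 * s ≤ 4 * I w := by
  rcases Nat.eq_zero_or_pos (runs o w (2 * s + 1)).card with h0 | h0
  · simp [h0]
  obtain ⟨N, hN⟩ : ∃ N, (runs o w (2 * s + 1)).card = N + 1 := ⟨_, (Nat.sub_add_cancel h0).symm⟩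
  have := h.quad hs N hw hN.ge
  rw [hN, Nat.add_sub_cancel]
  nlinarith [Nat.zero_le (N * s)]

theorem Geo.nle (h : Geo I) {o : Fin 3} {t q : ℕ} (ht : 1 ≤ t) {w : Wd} (hw : Valid w)
    (hq : I w ≤ q ^ 2) : (runs o w (2 * t ^ 2 + 1)).card * t ≤ 2 * q + t := by
  have a := h.sq (o := o) (s := t ^ 2) (Nat.one_le_pow _ _ ht) hw
  have b : (((runs o w (2 * t ^ 2 + 1)).card - 1) * t) ^ 2 ≤ (2 * q) ^ 2 := by
    rw [mul_pow, mul_pow]; omega
  have c := (Nat.pow_le_pow_iff_left (by norm_num)).1 b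
  have d : (runs o w (2 * t ^ 2 + 1)).card ≤ (runs o w (2 * t ^ 2 + 1)).card - 1 + 1 := by omega
  have := Nat.mul_le_mul_right t d
  rw [add_mul, one_mul] at this
  omega

theorem Geo.n3 (h : Geo I) {o : Fin 3} {q : ℕ} {w : Wd} (hw : Valid w) (hq : I w ≤ q ^ 2) :
    (runs o w 3).card ≤ 2 * q + 1 := by
  simpa using h.nle (o := o) (t := 1) le_rfl hw hq

/-- the number of runs with at least three letters -/
def MM (w : Wd) : ℕ := ∑ o : Fin 3, (runs o w 3).card

theorem opp_aux (a b c a' b' c' d e f : Option (Fin 3)) (x y : Bool) (ha : a ≠ none) (hb : b ≠ none)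
    (hc : c ≠ none) (ha' : a' ≠ none) (hb' : b' ≠ none) (hc' : c' ≠ none)
    (h1 : a ≠ b) (h2 : b ≠ c) (h3 : a ≠ c) (h1' : a' ≠ b') (h2' : b' ≠ c') (h3' : a' ≠ c')
    (e1 : b = b') (e2 : (if x then a else c) = if y then a' else c') (hd : d = a') (he : e = b')
    (hf : f = c') : b = e ∧ d ≠ f ∧ (a = d ↔ x = y) := by
  subst hd he hf e1
  obtain ⟨a, rfl⟩ := Option.ne_none_iff_exists'.1 ha
  obtain ⟨b, rfl⟩ := Option.ne_none_iff_exists'.1 hb
  obtain ⟨c, rfl⟩ := Option.ne_none_iff_exists'.1 hc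
  obtain ⟨d, rfl⟩ := Option.ne_none_iff_exists'.1 ha'
  obtain ⟨f, rfl⟩ := Option.ne_none_iff_exists'.1 hc'
  clear ha hb hc ha' hb' hc'
  refine ⟨rfl, h3', ?_⟩
  simp only [ne_eq, Option.some.injEq] at h1 h2 h3 h1' h2' h3' ⊢
  cases x <;> cases y <;> simp only [Bool.false_eq_true, if_false, if_true, Option.some.injEq] at e2 <;>
    subst e2 <;> simp <;> omega

theorem Geo.chg_le (h : Geo I) {q : ℕ} {w : Wd} (hw : Valid w) (hq : I w ≤ q ^ 2) :
    (chg w).card ≤ 9 * q + 3 * (1 + MM w) := by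
  have mem : ∀ i, i ∈ chg w ↔ i + 2 < w.length ∧ w[i]? ≠ w[i + 2]? := fun i => by
    simp only [chg, mem_filter, mem_range]
    exact and_congr (by omega) Iff.rfl
  have per : ∀ i, i ∈ chg w → i + 1 ∈ chg w → w[i + 3]? = w[i]? := fun i h0 h1 => by
    obtain ⟨a0, b0⟩ := (mem _).1 h0
    obtain ⟨a1, b1⟩ := (mem _).1 h1
    obtain ⟨x, hx⟩ := ex_some a0
    refine third' (b := w[i + 1]?) (d := x) (nn (by omega)) (nn (by omega)) (nn (by omega))
      (Ne.symm b1) ?_ ?_ (hw.ne (by omega)) (hx ▸ b0)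
    · rw [← hx]; exact (hw.ne (i := i + 2) (by omega)).symm
    · rw [← hx]; exact hw.ne (i := i + 1) (by omega)
  set Q := (chg w).filter fun i => i + 1 ∈ chg w ∧ i + 2 ∈ chg w ∧ i + 3 ∈ chg w with hQ
  set E := (chg w).filter fun i => i + 1 ∉ chg w with hE
  have hQ9 : Q.card ≤ 9 * q := by
    by_contra hc
    obtain ⟨y, -, hy⟩ := exists_lt_card_fiber_of_mul_lt_card_of_maps_to (s := Q)
      (t := (univ : Finset (Fin 3 × Fin 3))) (n := q)
      (f := fun i => (w[i + 1]?.getD 0, (if decide (i % 2 = 0) then w[i]? else w[i + 2]?).getD 0))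
      (fun _ _ => mem_univ _) (by simp only [card_univ, Fintype.card_prod, Fintype.card_fin]; omega)
    set A := Q.filter fun i => (w[i + 1]?.getD 0,
      (if decide (i % 2 = 0) then w[i]? else w[i + 2]?).getD 0) = y with hA
    have := h.SZ w A (A.image (· + 3)) hw fun i hi j hj => by
      obtain ⟨k, hk, rfl⟩ := mem_image.1 hj
      obtain ⟨i1, i2⟩ := mem_filter.1 hi
      obtain ⟨k1, k2⟩ := mem_filter.1 hk
      obtain ⟨a0, b0⟩ := (mem _).1 (mem_filter.1 i1).1
      obtain ⟨c0, c1, c2, c3⟩ := mem_filter.1 k1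
      obtain ⟨a1, b1⟩ := (mem _).1 c0
      obtain ⟨a3, b3⟩ := (mem _).1 c3
      rw [← k2, Prod.mk.injEq] at i2
      have g : ∀ u v : Option (Fin 3), u ≠ none → v ≠ none → u.getD 0 = v.getD 0 → u = v := by
        decide
      have r := opp_aux w[i]? w[i + 1]? w[i + 2]? w[k]? w[k + 1]? w[k + 2]? w[k + 3]? w[k + 3 + 1]?
        w[k + 3 + 2]? (decide (i % 2 = 0)) (decide (k % 2 = 0)) (nn (by omega)) (nn (by omega))
        (nn (by omega)) (nn (by omega)) (nn (by omega)) (nn (by omega)) (hw.ne (by omega))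
        (hw.ne (i := i + 1) (by omega)) b0 (hw.ne (by omega)) (hw.ne (i := k + 1) (by omega)) b1
        (g _ _ (nn (by omega)) (nn (by omega)) i2.1)
        (g _ _ (by split_ifs <;> exact nn (by omega)) (by split_ifs <;> exact nn (by omega)) i2.2)
        (per k c0 c1) (per (k + 1) c1 c2) (per (k + 2) c2 c3)
      refine ⟨a0, a3, r.1, b0, r.2.1, r.2.2.trans ?_⟩
      rw [decide_eq_decide]
      omega
    rw [card_image_of_injective _ (add_left_injective 3)] at this
    nlinarith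
  have hE1 : E.card ≤ 1 + MM w := by
    have : (E.erase (w.length - 3)).card ≤ MM w := by
      unfold MM
      rw [← card_sigma]
      refine card_le_card_of_surjOn (fun x => x.2 - 1) fun i hi => ?_
      obtain ⟨hne, hi⟩ := mem_erase.1 (mem_coe.1 hi)
      obtain ⟨h0, h1⟩ := mem_filter.1 hi
      obtain ⟨a0, b0⟩ := (mem _).1 h0
      rw [mem, not_and, not_not] at h1
      obtain ⟨x, hx⟩ := ex_some (w := w) (i := i) (by omega)
      refine ⟨⟨x, i + 1⟩, mem_coe.2 (mem_sigma.2 ⟨mem_univ _, (mem_runs (by omega)).2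
        ⟨by simp only; omega, Or.inr hx, fun j hj => ?_⟩⟩), rfl⟩
      simp only [← hx]
      have n1 := (hw.ne (i := i) (by omega)).symm
      interval_cases j
      · exact n1
      · exact b0.symm
      · rw [← h1 (by omega)]; exact n1
    have := pred_card_le_card_erase (s := E) (a := w.length - 3)
    omega
  have hsub : chg w ⊆ Q ∪ (E ∪ (E.image (· - 1) ∪ E.image (· - 2))) := by
    intro i hi
    simp only [mem_union, mem_image, hQ, hE, mem_filter]
    by_cases c1 : i + 1 ∈ chg w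
    · by_cases c2 : i + 2 ∈ chg w
      · by_cases c3 : i + 3 ∈ chg w
        · exact Or.inl ⟨hi, c1, c2, c3⟩
        · exact Or.inr (Or.inr (Or.inr ⟨i + 2, ⟨c2, c3⟩, rfl⟩))
      · exact Or.inr (Or.inr (Or.inl ⟨i + 1, ⟨c1, c2⟩, rfl⟩))
    · exact Or.inr (Or.inl ⟨hi, c1⟩)
  have t1 := card_le_card hsub
  have t2 := card_union_le Q (E ∪ (E.image (· - 1) ∪ E.image (· - 2)))
  have t3 := card_union_le E (E.image (· - 1) ∪ E.image (· - 2))
  have t4 := card_union_le (E.image (· - 1)) (E.image (· - 2))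
  have t5 := card_image_le (s := E) (f := (· - 1))
  have t6 := card_image_le (s := E) (f := (· - 2))
  omega

theorem Geo.mm_le (h : Geo I) {q : ℕ} {w : Wd} (hw : Valid w) (hq : I w ≤ q ^ 2) :
    MM w ≤ 6 * q + 3 := by
  have a := h.n3 (o := 0) hw hq
  have b := h.n3 (o := 1) hw hq
  have c := h.n3 (o := 2) hw hq
  unfold MM
  rw [Fin.sum_univ_three]
  omega

theorem Geo.chg_le' (h : Geo I) {q : ℕ} {w : Wd} (hw : Valid w) (hq : I w ≤ q ^ 2) (h1 : 1 ≤ q) :
    (chg w).card ≤ 39 * q := by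
  have := h.chg_le hw hq
  have := h.mm_le hw hq
  omega

theorem Geo.len (h : Geo I) {q : ℕ} {w : Wd} (hw : Valid w) (hq : I w ≤ q ^ 2) (h1 : 1 ≤ q) :
    w.length ≤ 59 * q ^ 3 := by
  have a := len_le (w := w) (2 * q ^ 2 + 2) fun o p l hs => by have := h.run_le hw hs; omega
  have b := h.chg_le' hw hq h1
  have c : ∑ o : Fin 3, ∑ l ∈ Icc 3 (2 * q ^ 2 + 2), (runs o w l).card ≤
      ∑ o : Fin 3, ∑ l ∈ Icc 3 (2 * q ^ 2 + 2), 3 * q := by
    refine sum_le_sum fun o _ => sum_le_sum fun l hl => ?_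
    have := card_le_card (runs_mono o w (mem_Icc.1 hl).1)
    have := h.n3 (o := o) hw hq
    omega
  simp only [sum_const, card_univ, Fintype.card_fin, Nat.card_Icc, smul_eq_mul] at c
  rw [show 2 * q ^ 2 + 2 + 1 - 3 = 2 * q ^ 2 by omega] at c
  have d : q ≤ q ^ 3 := Nat.le_self_pow (by norm_num) q
  have e : 3 * (2 * q ^ 2 * (3 * q)) = 18 * q ^ 3 := by ring
  omega

end Pool.Agent.MP_d5eec5_gt.H48
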