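import Pool.Agent.MP_d5eec5_gt.H48.Up

/-! The average number of crossings of the middle segment. -/

namespace Pool.Agent.MP_d5eec5_gt.H48

open Finset

variable {I : Wd → ℕ}

theorem sum_pairs (f : ℕ → ℕ) (hf : Antitone f) (n : ℕ) :
    ∑ l ∈ Icc 3 (2 * n + 2), f l ≤ 2 * ∑ s ∈ Icc 1 n, f (2 * s + 1) := by
  induction n with
  | zero => simp
  | succ n ih =>
    rw [show 2 * (n + 1) + 2 = 2 * n + 2 + 1 + 1 by omega, sum_Icc_succ_top (by omega),
      sum_Icc_succ_top (by omega), sum_Icc_succ_top (a := 1) (by omega),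
      show 2 * (n + 1) + 1 = 2 * n + 2 + 1 by omega]
    have := hf (Nat.le_succ (2 * n + 2 + 1))
    simp only [Nat.succ_eq_add_one] at this
    omega

theorem Geo.ss_le (h : Geo I) : ∃ K : ℕ, 1 ≤ K ∧ ∀ n Q : ℕ, qq n ≤ Q → 1 ≤ Real.log Q →
    (Cs I (fun w => w.count 1) n : ℝ) ≤ K * (Q * Real.log Q) * (Cum I n).card := by
  obtain ⟨K, -, hK⟩ := h.an_le
  refine ⟨41 + 18 * K, by omega, fun n Q hQ hl => ?_⟩
  have hn := lt_qq n
  have hq := qq_pos n
  have a : Cs I (fun w => w.count 1) n ≤ ∑ w ∈ Cum I n,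
      (41 * Q + ∑ o : Fin 3, 2 * ∑ s ∈ Icc 1 n, (runs o w (2 * s + 1)).card) := by
    refine sum_le_sum fun w hw => ?_
    obtain ⟨v, hv⟩ := h.mem.1 hw
    have a1 := len_le (w := w) (2 * n + 2) fun o p l hs => by have := h.run_le v hs; omega
    have a2 := h.chg_le' v (hv.trans hn.le) hq
    have a3 : ∑ o : Fin 3, ∑ l ∈ Icc 3 (2 * n + 2), (runs o w l).card ≤
        ∑ o : Fin 3, 2 * ∑ s ∈ Icc 1 n, (runs o w (2 * s + 1)).card :=
      sum_le_sum fun o _ => sum_pairs (fun l => (runs o w l).card)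
        (fun l l' hl => card_le_card (runs_mono o w hl)) n
    have a4 : w.count 1 ≤ w.length := List.count_le_length
    omega
  rw [sum_add_distrib, sum_const, smul_eq_mul, sum_comm] at a
  have hQ1 : (1 : ℝ) ≤ Q := by exact_mod_cast hq.trans hQ
  have ln : Real.log n ≤ 2 * Real.log Q := by
    rcases Nat.eq_zero_or_pos n with h0 | h0
    · rw [h0, Nat.cast_zero, Real.log_zero]; linarith
    · have : (n : ℝ) ≤ Q ^ 2 := by exact_mod_cast hn.le.trans (Nat.pow_le_pow_left hQ 2)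
      have := Real.log_le_log (Nat.cast_pos.2 h0) this
      rwa [Real.log_pow] at this
  have hC := Nat.cast_nonneg (α := ℝ) (Cum I n).card
  have b : ∀ o : Fin 3, ((∑ w ∈ Cum I n, 2 * ∑ s ∈ Icc 1 n, (runs o w (2 * s + 1)).card : ℕ) : ℝ) ≤
      6 * K * (Q * Real.log Q) * (Cum I n).card := fun o => by
    rw [← mul_sum, sum_comm, Nat.cast_mul, Nat.cast_sum]
    have b1 : ∑ s ∈ Icc 1 n, ((∑ w ∈ Cum I n, (runs o w (2 * s + 1)).card : ℕ) : ℝ) ≤
        ∑ s ∈ Icc 1 n, (K * Q * (Cum I n).card : ℝ) * (s : ℝ)⁻¹ := by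
      refine sum_le_sum fun s hs => ?_
      have s1 := (mem_Icc.1 hs).1
      rw [← div_eq_mul_inv, le_div_iff₀ (Nat.cast_pos.2 s1), mul_comm]
      exact_mod_cast (hK o s s1 n).trans (Nat.mul_le_mul_right _ (Nat.mul_le_mul_left _ hQ))
    have b2 : ∑ s ∈ Icc 1 n, (s : ℝ)⁻¹ ≤ 3 * Real.log Q := by
      have := harmonic_le_one_add_log n
      rw [harmonic_eq_sum_Icc] at this
      push_cast at this
      linarith
    rw [← mul_sum] at b1
    have b3 := mul_le_mul_of_nonneg_left b2 (show (0 : ℝ) ≤ K * Q * (Cum I n).card by positivity)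
    push_cast at b1 ⊢
    linarith
  rw [Fin.sum_univ_three] at a
  have a' := (Nat.cast_le (α := ℝ)).2 a
  rw [Nat.cast_add, Nat.cast_add, Nat.cast_add] at a'
  have c : (((Cum I n).card * (41 * Q) : ℕ) : ℝ) ≤ 41 * (Q * Real.log Q) * (Cum I n).card := by
    push_cast
    nlinarith [mul_le_mul_of_nonneg_left hl (show (0 : ℝ) ≤ Q * (Cum I n).card by positivity)]
  have b0 := b 0
  have b1 := b 1
  have b2 := b 2
  rw [Nat.cast_add, Nat.cast_mul, Nat.cast_ofNat, Nat.cast_ofNat]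
  linarith

theorem Geo.ss_ge (h : Geo I) : ∃ B q₀ : ℕ, 1 ≤ B ∧ ∀ n : ℕ, q₀ ≤ qq n → 100 ≤ Real.log (qq n) →
    (qq n * Real.log (qq n)) * (Cum I n).card ≤ B * (Cs I (fun w => w.count 1) n : ℝ) := by
  obtain ⟨B, q₀, hB1, hB⟩ := h.upa 6
  refine ⟨16 * B, q₀ + 60, by omega, fun n hq hl => ?_⟩
  have hn := sq_le_of_lt_qq (a := qq n - 1) (n := n) (by omega)
  set q := qq n with hqd
  obtain ⟨k, hk⟩ : ∃ k, q = k + 4 := ⟨q - 4, by omega⟩
  have h3 : k ^ 2 + 3 * q ≤ n := by
    rw [hk, show k + 4 - 1 = k + 3 by omega] at hn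
    have : 5 ≤ k := by omega
    nlinarith
  set m := n - 3 * q with hm
  have hkm : k < qq m := le_qq (by omega)
  have hC := hB m n (by omega) (by omega)
  have one : ∀ s ∈ Ioc 50 q, (Cum I n).card * q ≤ 4 * B * (s * ∑ w ∈ Cum I n,
      ∑ o ∈ ({0, 2} : Finset (Fin 3)), (runs o w (2 * s + 1)).card) := by
    intro s hs
    obtain ⟨s1, s2⟩ := mem_Ioc.1 hs
    set r := q / s with hr
    have r1 : s * r ≤ q := Nat.mul_div_le _ _
    have r2 : q < s * (r + 1) := Nat.lt_mul_div_succ _ (by omega)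
    have r3 : 1 ≤ r := (Nat.one_le_div_iff (by omega)).2 s2
    have r4 : 50 * r ≤ q := (Nat.mul_le_mul_right r s1.le).trans r1
    have a := h.short (l := 4 * r + 3) (n := m) (by omega)
    have b := h.push (n := m) (r := r) s ((Cum I m).filter fun w => 4 * r + 3 ≤ w.length) {0, 2}
      fun u hu => ⟨(mem_filter.1 hu).1, by
        have v := (h.mem.1 (mem_filter.1 hu).1).1
        have l := (mem_filter.1 hu).2
        have c1 := count_sum u
        have c2 := count_one_le v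
        have b0 := count_le_runs v 0
        have b2 := count_le_runs v 2
        by_contra hc
        push Not at hc
        have := hc 0 (by simp)
        have := hc 2 (by simp)
        omega⟩
    have c := b.trans (sum_le_sum_of_subset (t := Cum I n) fun w hw => h.mem.2 ⟨(h.mem.1 hw).1,
      (h.mem.1 hw).2.trans (by rw [add_mul, one_mul, mul_assoc, mul_comm r s]; omega)⟩)
    have d : q ≤ 2 * (r * s) := by nlinarith
    have e := Nat.mul_le_mul (hC.trans (Nat.mul_le_mul_left B a)) d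
    have f := Nat.mul_le_mul_left (4 * B * s) c
    nlinarith
  have two : ∑ s ∈ Ioc 50 q, ∑ w ∈ Cum I n, ∑ o ∈ ({0, 2} : Finset (Fin 3)),
      (runs o w (2 * s + 1)).card ≤ 2 * Cs I (fun w => w.count 1) n := by
    rw [sum_comm, Cs, mul_sum]
    refine sum_le_sum fun w hw => ?_
    rw [sum_comm, sum_pair (by decide), two_mul]
    have hT : ∀ s ∈ Ioc 50 q, 1 ≤ s := fun s hs => by have := (mem_Ioc.1 hs).1; omega
    exact Nat.add_le_add (sum_runs_le (h.mem.1 hw).1 (by decide) _ hT)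
      (sum_runs_le (h.mem.1 hw).1 (by decide) _ hT)
  have three : ∑ s ∈ Ioc 50 q, ((Cum I n).card * q : ℝ) * (s : ℝ)⁻¹ ≤ ∑ s ∈ Ioc 50 q,
      4 * B * ((∑ w ∈ Cum I n, ∑ o ∈ ({0, 2} : Finset (Fin 3)),
        (runs o w (2 * s + 1)).card : ℕ) : ℝ) := by
    refine sum_le_sum fun s hs => ?_
    have s1 : 0 < s := by have := (mem_Ioc.1 hs).1; omega
    rw [← div_eq_mul_inv, div_le_iff₀ (Nat.cast_pos.2 s1), mul_assoc, mul_comm _ (s : ℝ)]
    exact_mod_cast one s hs
  rw [← mul_sum, ← mul_sum, ← Nat.cast_sum] at three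
  have four : Real.log q - 50 ≤ ∑ s ∈ Ioc 50 q, (s : ℝ)⁻¹ := by
    have a := log_add_one_le_harmonic q
    rw [harmonic_eq_sum_Icc, show Icc 1 q = Ioc 0 q from rfl,
      ← sum_Ioc_consecutive _ (Nat.zero_le 50) (show 50 ≤ q by omega)] at a
    have b : ∑ s ∈ Ioc 0 50, ((s : ℕ) : ℝ)⁻¹ ≤ ∑ s ∈ Ioc 0 50, (1 : ℝ) :=
      sum_le_sum fun s hs => inv_le_one_of_one_le₀ (by exact_mod_cast (mem_Ioc.1 hs).1)
    rw [sum_const, Nat.card_Ioc, nsmul_eq_mul] at b
    have c : Real.log q ≤ Real.log (q + 1 : ℕ) :=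
      Real.log_le_log (Nat.cast_pos.2 (by omega)) (Nat.cast_le.2 (by omega))
    push_cast at a b c
    linarith
  have two' := (Nat.cast_le (α := ℝ)).2 two
  rw [Nat.cast_mul, Nat.cast_ofNat] at two'
  have five := mul_le_mul_of_nonneg_left (show Real.log q / 2 ≤ _ from le_trans (by linarith) four)
    (show (0 : ℝ) ≤ (Cum I n).card * q by positivity)
  have six := mul_le_mul_of_nonneg_left two' (show (0 : ℝ) ≤ 4 * B by positivity)
  push_cast at three six ⊢
  linarith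

theorem count : Count := by
  intro I h
  refine ⟨fun n => (Cum I n).finite_toSet.subset fun w hw => mem_coe.2 (h.mem.2 ⟨hw.1, hw.2.le⟩), ?_⟩
  obtain ⟨K, hK1, hK⟩ := h.ss_le
  obtain ⟨B, q₀, hB1, hB⟩ := h.ss_ge
  obtain ⟨A, hA, hd⟩ := h.down
  obtain ⟨D, q₁, hD1, hD⟩ := h.upa 1
  obtain ⟨q₂, hq₂⟩ := exists_nat_ge (Real.exp 100)
  set j := 2 * K * B with hj
  have hj1 : 1 ≤ j := Nat.mul_pos (by omega) hB1
  refine ⟨1 / (4 * B * D * j * A), 16 * K * D * A, by positivity,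
    (q₀ + q₁ + q₂ + j * A + 4) ^ 2, fun n hn F hF => ?_⟩
  have hq := le_qq hn
  have n1 := lt_qq n
  have n2 := sq_le_of_lt_qq (a := qq n - 1) (n := n) (by omega)
  have eF : F = (Cum I n).filter fun w => I w = n := by
    ext w
    rw [hF, mem_filter, h.mem]
    exact ⟨fun a => ⟨⟨a.1, a.2.le⟩, a.2⟩, fun a => ⟨a.1.1, a.2⟩⟩
  have e1 : Lv I (fun _ => 1) n = F.card := by rw [Lv, ← eF, sum_const, smul_eq_mul, mul_one]
  have e2 : ∑ w ∈ F, (w.count 1 : ℝ) = Lv I (fun w => w.count 1) n := by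
    rw [Lv, ← eF, Nat.cast_sum]
  have m1 := h.lv_mono (g := fun _ => 1) fun _ _ _ => rfl
  have m2 := h.lv_mono (g := fun w => w.count 1) fun _ _ e => e
  set q := qq n with hqd
  obtain ⟨k, hk⟩ : ∃ k, q = k + 1 := ⟨q - 1, by omega⟩
  rw [hk, Nat.add_sub_cancel] at n2
  have hJ : j * (A * q) ≤ n := by
    have : j * A + 2 ≤ k := by omega
    nlinarith
  have hJ1 : A * q ≤ n := (Nat.le_mul_of_pos_left _ hj1).trans hJ
  have hqn : q ≤ n := (Nat.le_mul_of_pos_left _ hA).trans hJ1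
  have qr : (0 : ℝ) < q := Nat.cast_pos.2 (by omega)
  have nr : (0 : ℝ) < n := Nat.cast_pos.2 (by omega)
  have hl : 100 ≤ Real.log q := by
    rw [Real.le_log_iff_exp_le qr]
    exact hq₂.trans (Nat.cast_le.2 (by omega))
  -- level counts
  have c1 : q * F.card ≤ D * (Cum I n).card := by
    have a := h.cs_ge m1 n q
    have b := hD n (n + q) (by omega) (by omega)
    rw [e1, cs_one, cs_one] at a
    omega
  have c2 : (Cum I n).card ≤ 2 * (A * q * F.card) := by
    have a := h.cs_le m1 (n - A * q) (A * q)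
    have b := hd 1 (n - A * q) n (by rw [← hqd]; omega)
    rw [Nat.sub_add_cancel hJ1, e1, cs_one, cs_one] at a
    omega
  have c3 := h.low (m := 0) (n := n) (le_trans (Nat.pow_le_pow_left (by omega) 2) hn)
  set Φ : ℝ := q * Real.log q with hΦ
  set C : ℝ := ((Cum I n).card : ℝ) with hC
  set S : ℝ := (Lv I (fun w => w.count 1) n : ℝ) with hS
  set c : ℝ := (F.card : ℝ) with hc
  have Φ0 : 0 < Φ := by positivity
  have c0 : 0 ≤ c := Nat.cast_nonneg _
  have S0 : 0 ≤ S := Nat.cast_nonneg _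
  have c1' : q * c ≤ D * C := by rw [hc, hC]; exact_mod_cast c1
  have c2' : C ≤ 2 * (A * q * c) := by rw [hc, hC]; exact_mod_cast c2
  have lo : Φ * c ≤ 2 * B * D * j * A * S := by
    have a := h.cs_le m2 (n - j * (A * q)) (j * (A * q))
    rw [Nat.sub_add_cancel hJ] at a
    have a' := (Nat.cast_le (α := ℝ)).2 a
    rw [Nat.cast_add, Nat.cast_mul (j * (A * q)), Nat.cast_mul j, Nat.cast_mul A, ← hS] at a'
    have b := hB n (by omega) hl
    have d := hK (n - j * (A * q)) q (qq_mono (Nat.sub_le _ _)) (by linarith)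
    have e : j * (Cum I (n - j * (A * q))).card ≤ (Cum I n).card :=
      (Nat.mul_le_mul_right _ (Nat.lt_two_pow_self).le).trans
        (hd j _ n (by rw [← hqd]; omega))
    have e' : 2 * K * B * ((Cum I (n - j * (A * q))).card : ℝ) ≤ C := by
      rw [hC]; exact_mod_cast e
    rw [← hqd, ← hΦ, ← hC] at b
    rw [← hΦ] at d
    have Br : (0 : ℝ) ≤ B := Nat.cast_nonneg _
    have f1 := mul_le_mul_of_nonneg_left a' Br
    have f2 := mul_le_mul_of_nonneg_left d Br
    have f3 := mul_le_mul_of_nonneg_left e' Φ0.le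
    have f4 : Φ * C ≤ 2 * B * (j * (A * q) * S) := by linarith
    have f5 := mul_le_mul_of_nonneg_left c1' Φ0.le
    have f6 := mul_le_mul_of_nonneg_left f4 (Nat.cast_nonneg (α := ℝ) D)
    refine le_of_mul_le_mul_left (a := (q : ℝ)) ?_ qr
    linarith
  have hi : S ≤ 8 * K * D * A * Φ * c := by
    have a := h.cs_ge m2 n q
    have a' := (Nat.cast_le (α := ℝ)).2 ((Nat.le_add_left _ _).trans a)
    rw [Nat.cast_mul, ← hS] at a'
    have l2 : Real.log (2 * q : ℕ) ≤ 2 * Real.log q := by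
      rw [Nat.cast_mul, Real.log_mul (by norm_num) qr.ne', Nat.cast_ofNat]
      have := Real.log_two_lt_d9
      linarith
    have l3 : Real.log q ≤ Real.log (2 * q : ℕ) := Real.log_le_log qr (Nat.cast_le.2 (by omega))
    have b := hK (n + q) (2 * q) (by
      by_contra hc
      have := sq_le_of_lt_qq (not_le.1 hc)
      nlinarith) (by linarith)
    have d : ((Cum I (n + q)).card : ℝ) ≤ D * C := by
      rw [hC]; exact_mod_cast hD n (n + q) (by omega) (by omega)
    have e : ((2 * q : ℕ) : ℝ) * Real.log (2 * q : ℕ) ≤ 4 * Φ := by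
      have := mul_le_mul_of_nonneg_left l2 qr.le
      rw [hΦ, Nat.cast_mul 2 q] at *
      push_cast at *
      linarith
    have f1 : (K : ℝ) * ((2 * q : ℕ) * Real.log (2 * q : ℕ)) * (Cum I (n + q)).card ≤
        K * (4 * Φ) * (D * (2 * (A * q * c))) :=
      mul_le_mul (mul_le_mul_of_nonneg_left e (Nat.cast_nonneg _))
        (d.trans (mul_le_mul_of_nonneg_left c2' (Nat.cast_nonneg _))) (Nat.cast_nonneg _)
        (by positivity)
    refine le_of_mul_le_mul_left (a := (q : ℝ)) ?_ qr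
    linarith
  have s1 : √(n : ℝ) ≤ q := Real.sqrt_le_iff.2 ⟨qr.le, by exact_mod_cast n1.le⟩
  have s2 : (q : ℝ) ≤ 2 * √(n : ℝ) := by
    have a : (k : ℝ) ≤ √(n : ℝ) := Real.le_sqrt_of_sq_le (by exact_mod_cast n2)
    have b : (q : ℝ) ≤ 2 * k := by exact_mod_cast (by omega)
    linarith
  have s3 : Real.log q ≤ Real.log n := Real.log_le_log qr (Nat.cast_le.2 hqn)
  have s4 : Real.log n ≤ 2 * Real.log q := by
    have := Real.log_le_log nr (show (n : ℝ) ≤ q ^ 2 by exact_mod_cast n1.le)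
    rwa [Real.log_pow] at this
  have t1 : √(n : ℝ) * Real.log n ≤ 2 * Φ := by
    have := mul_le_mul s1 s4 (by linarith) qr.le
    linarith
  have t2 : Φ ≤ 2 * (√(n : ℝ) * Real.log n) := by
    have := mul_le_mul s2 s3 (by linarith) (by positivity)
    linarith
  rw [e2]
  refine ⟨card_pos.1 (Nat.pos_of_ne_zero fun h0 => ?_), ?_, ?_⟩
  · rw [h0] at c2
    omega
  · rw [mul_assoc, one_div, inv_mul_le_iff₀ (by positivity)]
    have := mul_le_mul_of_nonneg_right t1 c0
    linarith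
  · have := mul_le_mul_of_nonneg_left (mul_le_mul_of_nonneg_right t2 c0)
      (show (0 : ℝ) ≤ 8 * K * D * A by positivity)
    linarith

end Pool.Agent.MP_d5eec5_gt.H48
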