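import Pool.Agent.MP_d5eec5_gt.H48.Kraft

/-! Cumulative counts: finiteness, padding, growth. -/

namespace Pool.Agent.MP_d5eec5_gt.H48

open Finset

noncomputable section

def qq (n : ℕ) : ℕ := Nat.sqrt n + 1

theorem lt_qq (n : ℕ) : n < qq n ^ 2 := Nat.lt_succ_sqrt' n

theorem qq_pos (n : ℕ) : 1 ≤ qq n := Nat.le_add_left _ _

theorem qq_mono {m n : ℕ} (h : m ≤ n) : qq m ≤ qq n := Nat.succ_le_succ (Nat.sqrt_le_sqrt h)

theorem le_qq {a n : ℕ} (h : a ^ 2 ≤ n) : a < qq n := Nat.lt_succ_of_le (Nat.le_sqrt'.2 h)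

theorem sq_le_of_lt_qq {a n : ℕ} (h : a < qq n) : a ^ 2 ≤ n := Nat.le_sqrt'.1 (Nat.lt_succ_iff.1 h)

open Classical in
/-- the words with at most `n` crossings -/
def Cum (I : Wd → ℕ) (n : ℕ) : Finset Wd :=
  (List.finite_length_le (Fin 3) (59 * qq n ^ 3)).toFinset.filter fun w => Valid w ∧ I w ≤ n

variable {I : Wd → ℕ}

theorem Geo.mem (h : Geo I) {n : ℕ} {w : Wd} : w ∈ Cum I n ↔ Valid w ∧ I w ≤ n := by
  simp only [Cum, mem_filter, Set.Finite.mem_toFinset, Set.mem_ofPred_eq]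
  exact ⟨fun a => a.2, fun a => ⟨h.len a.1 (a.2.trans (lt_qq n).le) (qq_pos n), a⟩⟩

theorem Geo.cum_mono (h : Geo I) {m n : ℕ} (hm : m ≤ n) : (Cum I m).card ≤ (Cum I n).card :=
  card_le_card fun _ hw => h.mem.2 ⟨(h.mem.1 hw).1, (h.mem.1 hw).2.trans hm⟩

def blk : List Bool → Wd
  | [] => [2, 0]
  | true :: l => 2 :: 0 :: 1 :: blk l
  | false :: l => 2 :: 1 :: 0 :: blk l

theorem blk_spec (l : List Bool) : Valid (blk l) ∧ (blk l).length = 3 * l.length + 2 := by
  induction l with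
  | nil => exact ⟨⟨rfl, rfl, by simp [blk]⟩, rfl⟩
  | cons x l ih =>
    obtain ⟨⟨a, b, c⟩, d⟩ := ih
    obtain ⟨t, ht⟩ : ∃ t, blk l = 2 :: t := by
      rcases h : blk l with _ | ⟨y, t⟩
      · rw [h] at a; exact absurd a (by simp)
      · rw [h] at a; exact ⟨t, by rw [Option.some.inj a]⟩
    cases x <;> refine ⟨⟨rfl, ?_, ?_⟩, by simp only [blk, List.length_cons, d]; omega⟩ <;>
      simp only [blk] <;> rw [ht] at b c ⊢
    · simpa [List.getLast?_cons_cons] using b
    · simp only [List.isChain_cons_cons]; exact ⟨by decide, by decide, by decide, c⟩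
    · simpa [List.getLast?_cons_cons] using b
    · simp only [List.isChain_cons_cons]; exact ⟨by decide, by decide, by decide, c⟩

theorem blk_inj : ∀ l l' : List Bool, l.length = l'.length → blk l = blk l' → l = l'
  | [], [], _, _ => rfl
  | [], _ :: _, h, _ => absurd h (by simp)
  | _ :: _, [], h, _ => absurd h (by simp)
  | x :: l, y :: l', h, e => by
    cases x <;> cases y <;> simp only [blk, List.cons.injEq, true_and] at e
    · rw [blk_inj l l' (by simpa using h) e]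
    · exact absurd e.1 (by decide)
    · exact absurd e.1 (by decide)
    · rw [blk_inj l l' (by simpa using h) e]

theorem Geo.low (h : Geo I) {m n : ℕ} (hm : (3 * m + 3) ^ 2 ≤ n) : 2 ^ m ≤ (Cum I n).card := by
  have : (univ : Finset (Fin m → Bool)).card ≤ (Cum I n).card := by
    refine card_le_card_of_injOn (fun f => blk (List.ofFn f)) (fun f _ => ?_) fun f _ g _ e => ?_
    · obtain ⟨a, b⟩ := blk_spec (List.ofFn f)
      refine mem_coe.2 (h.mem.2 ⟨a, (h.up _ a).trans ?_⟩)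
      rwa [b, List.length_ofFn]
    · exact List.ofFn_injective (blk_inj _ _ (by simp) e)
  simpa using this

theorem Geo.short (h : Geo I) {l n : ℕ} (hl : 6 * l + 6 < qq n) :
    (Cum I n).card ≤ 2 * ((Cum I n).filter fun w => l ≤ w.length).card := by
  have a := h.low (m := 2 * l + 1) (n := n) (sq_le_of_lt_qq (by omega))
  have b : ((Cum I n).filter fun w => ¬ l ≤ w.length).card ≤
      (univ : Finset (Fin l → Option (Fin 3))).card := by
    refine card_le_card_of_injOn (fun w i => w[(i : ℕ)]?) (fun _ _ => mem_coe.2 (mem_univ _))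
      fun w hw w' hw' e => List.ext_getElem? fun i => ?_
    rcases lt_or_ge i l with hi | hi
    · exact congrFun e ⟨i, hi⟩
    · have := (mem_filter.1 (mem_coe.1 hw)).2
      have := (mem_filter.1 (mem_coe.1 hw')).2
      rw [List.getElem?_eq_none (by omega), List.getElem?_eq_none (by omega)]
  have c := card_filter_add_card_filter_not (s := Cum I n) (fun w => l ≤ w.length)
  simp only [card_univ, Fintype.card_fun, Fintype.card_option, Fintype.card_fin] at b
  rw [pow_succ, pow_mul] at a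
  norm_num only at a b
  omega

theorem Geo.push (h : Geo I) {n r : ℕ} (s : ℕ) (G : Finset Wd) (T : Finset (Fin 3))
    (hG : ∀ u ∈ G, u ∈ Cum I n ∧ ∃ o ∈ T, r ≤ (runs o u 1).card) :
    G.card * r ≤ ∑ w ∈ Cum I (n + (2 * r + 1) * s), ∑ o ∈ T, (runs o w (2 * s + 1)).card := by
  have : ∀ u ∈ G, ∃ R : Finset ℕ, R.card = r ∧ ∀ p ∈ R, ∃ w' ∈ Cum I (n + (2 * r + 1) * s),
      ∃ o ∈ T, St o w' p (2 * s + 1) ∧ del s p w' = u := fun u hu => by
    obtain ⟨a, o, ho, b⟩ := hG u hu
    obtain ⟨a1, a2⟩ := h.mem.1 a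
    obtain ⟨R, hR, c⟩ := h.E o u r a1 b
    refine ⟨R, hR, fun p hp => ?_⟩
    obtain ⟨w', d1, d2, d3, d4⟩ := c p hp s
    refine ⟨w', h.mem.2 ⟨d1, ?_⟩, o, ho, d2, d3⟩
    have : (2 * r + if o = 1 then 0 else 1) * s ≤ (2 * r + 1) * s :=
      Nat.mul_le_mul_right _ (by split_ifs <;> omega)
    omega
  choose! R hR hw using this
  have e : (G.sigma R).card = G.card * r := by
    rw [card_sigma, sum_congr rfl hR, sum_const, smul_eq_mul]
  simp only [← e, ← card_sigma]
  refine card_le_card_of_surjOn (fun x => ⟨del s x.2.2 x.1, x.2.2⟩) fun x hx => ?_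
  obtain ⟨h1, h2⟩ := mem_sigma.1 (mem_coe.1 hx)
  obtain ⟨w', a, o, ho, b, c⟩ := hw _ h1 _ h2
  refine ⟨⟨w', o, x.2⟩, mem_coe.2 (mem_sigma.2 ⟨a, mem_sigma.2 ⟨ho, (mem_runs (by omega)).2 b⟩⟩), ?_⟩
  simp only [c]

theorem Geo.pad (h : Geo I) : ∃ P : Wd → Wd, (∀ w, Valid w → Valid (P w) ∧ I (P w) = I w + 1 ∧
    (P w).count 1 = w.count 1) ∧ ∀ w w', Valid w → Valid w' → P w = P w' → w = w' := by
  have : ∀ w, Valid w → ∃ w' p, Valid w' ∧ St 1 w' p 3 ∧ del 1 p w' = w ∧ I w' = I w + 1 := by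
    intro w hw
    have r : 1 ≤ (runs 1 w 1).card := card_pos.2 ⟨0, (mem_runs le_rfl).2 ⟨hw.pos, Or.inl rfl,
      fun i hi => by rw [show 0 + i = 0 by omega, ((valid_iff w).1 hw).1]; decide⟩⟩
    obtain ⟨R, hR, c⟩ := h.E 1 w 1 hw r
    obtain ⟨p, hp⟩ := card_pos.1 (show 0 < R.card by omega)
    obtain ⟨w', d1, d2, d3, d4⟩ := c p hp 1
    have := h.drop1 d1 d2
    rw [d3] at this
    simp only [if_true] at d4
    exact ⟨w', p, d1, d2, d3, by omega⟩
  choose! P p h1 h2 h3 h4 using this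
  refine ⟨P, fun w hw => ⟨h1 w hw, h4 w hw, ?_⟩, fun w w' hw hw' e => ?_⟩
  · rw [← count_del (s := 1) (h2 w hw), h3 w hw]
  · by_cases hp : p w = p w'
    · rw [← h3 w hw, ← h3 w' hw', e, hp]
    · exfalso
      obtain ⟨κ, k1, k2⟩ := h.K 1 (P w) 1 {p w, p w'} (h1 w hw) le_rfl (by
        intro x hx
        rcases mem_insert.1 hx with rfl | hx
        · exact h2 w hw
        · rw [mem_singleton.1 hx, e]; exact h2 w' hw')
      have a := k1 (p w) (by simp) (p w') (by simp) hp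
      have b := k2 (p w) (by simp)
      have c := k2 (p w') (by simp)
      rw [erase_insert (by simpa using hp), sum_singleton, h3 w hw] at b
      rw [pair_comm, erase_insert (by simpa using Ne.symm hp), sum_singleton, e, h3 w' hw'] at c
      have d := h4 w hw
      have d' := h4 w' hw'
      rw [e] at b d
      omega

/-- sums over a level and cumulative sums -/
def Lv (I : Wd → ℕ) (g : Wd → ℕ) (n : ℕ) : ℕ := ∑ w ∈ (Cum I n).filter (fun w => I w = n), g w

def Cs (I : Wd → ℕ) (g : Wd → ℕ) (n : ℕ) : ℕ := ∑ w ∈ Cum I n, g w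

theorem Geo.cs_succ (h : Geo I) (g : Wd → ℕ) (n : ℕ) :
    Cs I g (n + 1) = Cs I g n + Lv I g (n + 1) := by
  unfold Cs Lv
  rw [← sum_filter_add_sum_filter_not (Cum I (n + 1)) (fun w => I w = n + 1), add_comm]
  congr 2
  ext w
  simp only [mem_filter, h.mem]
  constructor
  · rintro ⟨⟨a, b⟩, c⟩; exact ⟨a, by omega⟩
  · rintro ⟨a, b⟩; exact ⟨⟨a, by omega⟩, by omega⟩

theorem Geo.cs_zero (h : Geo I) (g : Wd → ℕ) : Cs I g 0 = Lv I g 0 := by
  unfold Cs Lv
  rw [filter_true_of_mem fun w hw => Nat.le_zero.1 (h.mem.1 hw).2]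

theorem Geo.lv_mono (h : Geo I) {g : Wd → ℕ} (hg : ∀ w w', w.count 1 = w'.count 1 → g w = g w') :
    Monotone (Lv I g) := by
  obtain ⟨P, h1, h2⟩ := h.pad
  refine monotone_nat_of_le_succ fun n => ?_
  unfold Lv
  have v : ∀ w ∈ (Cum I n).filter (fun w => I w = n), Valid w := fun w hw =>
    (h.mem.1 (mem_filter.1 hw).1).1
  rw [sum_congr rfl fun w hw => (hg _ _ (h1 w (v w hw)).2.2).symm,
    ← sum_image (f := g) fun w hw w' hw' e => h2 w w' (v w hw) (v w' hw') e]
  refine sum_le_sum_of_subset fun x hx => ?_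
  obtain ⟨w, hw, rfl⟩ := mem_image.1 hx
  obtain ⟨a, b, -⟩ := h1 w (v w hw)
  have := (mem_filter.1 hw).2
  exact mem_filter.2 ⟨h.mem.2 ⟨a, by omega⟩, by omega⟩

theorem Geo.cs_ge (h : Geo I) {g : Wd → ℕ} (hg : Monotone (Lv I g)) (n J : ℕ) :
    Cs I g n + J * Lv I g n ≤ Cs I g (n + J) := by
  induction J with
  | zero => simp
  | succ J ih =>
    rw [← add_assoc, h.cs_succ, add_mul, one_mul]
    have := hg (show n ≤ n + J + 1 by omega)
    omega

theorem Geo.cs_le (h : Geo I) {g : Wd → ℕ} (hg : Monotone (Lv I g)) (n J : ℕ) :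
    Cs I g (n + J) ≤ Cs I g n + J * Lv I g (n + J) := by
  induction J with
  | zero => simp
  | succ J ih =>
    rw [← add_assoc, h.cs_succ, add_mul, one_mul]
    have := Nat.mul_le_mul_left J (hg (show n + J ≤ n + J + 1 by omega))
    omega

theorem cs_one (n : ℕ) : Cs I (fun _ => 1) n = (Cum I n).card := by simp [Cs]

theorem ex_runs {u : Wd} (hu : Valid u) {r : ℕ} (hl : 3 * r + 1 ≤ u.length) :
    ∃ o ∈ (univ : Finset (Fin 3)), r ≤ (runs o u 1).card := by
  have a := count_sum u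
  have b0 := count_le_runs hu 0
  have b1 := count_le_runs hu 1
  have b2 := count_le_runs hu 2
  by_contra hc
  push Not at hc
  have := hc 0 (mem_univ _)
  have := hc 1 (mem_univ _)
  have := hc 2 (mem_univ _)
  omega

theorem Geo.grow (h : Geo I) :
    ∃ A : ℕ, 1 ≤ A ∧ ∀ n, 2 * (Cum I n).card ≤ (Cum I (n + A * qq n)).card := by
  refine ⟨2100 ^ 2, by norm_num, fun n => ?_⟩
  have hn := lt_qq n
  set q := qq n with hq
  rcases lt_or_ge q (2100 ^ 2) with hs | hs
  · have m := h.lv_mono (g := fun _ => 1) fun _ _ _ => rfl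
    have a := h.cs_ge m n (n + 1)
    have b := h.cs_le m 0 n
    have c := m (Nat.zero_le n)
    rw [h.cs_zero, zero_add] at b
    simp only [cs_one] at a b
    have d := h.cum_mono (m := n + (n + 1)) (n := n + 2100 ^ 2 * q) (by nlinarith)
    rw [add_mul, one_mul] at a
    omega
  · set r := q / 20 with hr
    have a := h.short (l := 3 * r + 1) (n := n) (by omega)
    have b := h.push (n := n) (r := r) (2100 ^ 2) ((Cum I n).filter fun w => 3 * r + 1 ≤ w.length)
      univ fun u hu => ⟨(mem_filter.1 hu).1, ex_runs (h.mem.1 (mem_filter.1 hu).1).1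
        (mem_filter.1 hu).2⟩
    have hle : (2 * r + 1) * 2100 ^ 2 ≤ 2100 ^ 2 * q := by omega
    have c : (∑ w ∈ Cum I (n + (2 * r + 1) * 2100 ^ 2), ∑ o : Fin 3,
        (runs o w (2 * 2100 ^ 2 + 1)).card) * 2100 ≤
        ∑ w ∈ Cum I (n + (2 * r + 1) * 2100 ^ 2), ∑ o : Fin 3, (2 * (2 * q) + 2100) := by
      rw [sum_mul]
      refine sum_le_sum fun w hw => ?_
      rw [sum_mul]
      refine sum_le_sum fun o _ => h.nle (by norm_num) (h.mem.1 hw).1 ((h.mem.1 hw).2.trans ?_)
      nlinarith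
    simp only [sum_const, card_univ, Fintype.card_fin, smul_eq_mul] at c
    have d := h.cum_mono (Nat.add_le_add_left hle n)
    set x := (Cum I n).card
    set y := ((Cum I n).filter fun w => 3 * r + 1 ≤ w.length).card
    set z := (Cum I (n + (2 * r + 1) * 2100 ^ 2)).card
    have e : 4 * (3 * (2 * (2 * q) + 2100)) ≤ r * 2100 := by
      have e1 : q < 20 * r + 20 := by omega
      norm_num only at hs
      linarith
    have f : (4 * y) * (3 * (2 * (2 * q) + 2100)) ≤ z * (3 * (2 * (2 * q) + 2100)) := by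
      have := Nat.mul_le_mul_left y e
      have := Nat.mul_le_mul_right 2100 b
      nlinarith
    have g := Nat.le_of_mul_le_mul_right f (by omega)
    omega

theorem Geo.down (h : Geo I) : ∃ A : ℕ, 1 ≤ A ∧ ∀ j m n, m + j * (A * qq n) ≤ n →
    2 ^ j * (Cum I m).card ≤ (Cum I n).card := by
  obtain ⟨A, hA, hg⟩ := h.grow
  refine ⟨A, hA, fun j => ?_⟩
  induction j with
  | zero => intro m n hm; simpa using h.cum_mono (by simpa using hm)
  | succ j ih =>
    intro m n hm
    rw [add_mul, one_mul] at hm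
    have a := Nat.mul_le_mul_left A (qq_mono (show m ≤ n by omega))
    have b := ih (m + A * qq m) n (by omega)
    have c := Nat.mul_le_mul_left (2 ^ j) (hg m)
    rw [pow_succ, mul_assoc]
    omega

end

end Pool.Agent.MP_d5eec5_gt.H48
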