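import Pool.Agent.MP_d5eec5_gt.H77.GBasic

/-! The number of chords that cross a circle around the vertex `0`. -/

namespace Pool.Agent.MP_d5eec5_gt.H77

open Pool.Agent.MP_d5eec5_gt.H48 Finset

variable {τ η : Fin 3} {w : Wd} {p : ℕ → ℚ} {u v : ℚ}

theorem kap_split (u v : ℚ) (m : ℕ) (p : ℕ → ℚ) : kap u v m p =
    ((range (m + 1)).filter fun k => ¬ ins u v (p k) ∧ ins u v (p (k + 1))).card +
      ((range (m + 1)).filter fun k => ins u v (p k) ∧ ¬ ins u v (p (k + 1))).card := by
  unfold kap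
  rw [← card_union_of_disjoint (disjoint_filter.2 fun _ _ h h' => h.1 h'.1), ← filter_or]
  exact congrArg card (filter_congr fun k _ => by
    by_cases h1 : ins u v (p k) <;> by_cases h2 : ins u v (p (k + 1)) <;> simp [h1, h2])

theorem kap_one (hf : Fit τ η w p) (ht : Thr u v) {i : ℕ} (h : w[i]? = some 1) :
    ¬ ins u v (p (i + 1)) := fun hi => hf.ins_letter ht h hi rfl

theorem kap_start (hv : VG τ η w) (hf : Fit τ η w p) (ht : Thr u v) {j k : ℕ} (h : InRun w j k) :
    ¬ ins u v (p j) := by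
  rcases Nat.eq_zero_or_pos j with h0 | h0
  · subst h0
    rw [hf.h0, ins_vertex ht]
    rintro rfl
    exact h.ne_one le_rfl h.1 (by rw [← List.head?_eq_getElem?, hv.1]; rfl)
  · have := kap_one hf ht (h.2.2.1.resolve_left (by omega))
    rwa [Nat.sub_add_cancel h0] at this

theorem kap_enter (hv : VG τ η w) (hf : Fit τ η w p) (ht : Thr u v) {j : ℕ} :
    ∀ k, InRun w j k → ins u v (p k) →
      ∃ a, InRun w j (a + 1) ∧ ¬ ins u v (p a) ∧ ins u v (p (a + 1)) := by
  intro k
  induction k with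
  | zero => exact fun h => absurd h.1 (Nat.not_lt_zero _)
  | succ k ih =>
    intro h hi
    by_cases hc : ins u v (p k)
    · refine ih (h.mono (lt_of_le_of_ne (Nat.lt_succ_iff.1 h.1) ?_) (Nat.le_succ k)) hc
      rintro rfl
      exact kap_start hv hf ht h hc
    · exact ⟨k, h, hc, hi⟩

theorem kap_exit (hv : VG τ η w) (hf : Fit τ η w p) (ht : Thr u v) {j : ℕ} (n : ℕ) :
    ∀ k, w.length ≤ k + n → InRun w j k → ins u v (p k) →
      ∃ b, InRun w j b ∧ ins u v (p b) ∧ ¬ ins u v (p (b + 1)) := by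
  have last : ∀ k, w.length ≤ k → InRun w j k → ¬ ins u v (p (k + 1)) := by
    intro k hk h
    have e : k = w.length := le_antisymm h.le hk
    have h1 := h.1
    rw [e, hf.h1, ins_vertex ht]
    rintro rfl
    exact h.ne_one (i := w.length - 1) (by omega) (by omega)
      (by rw [← List.getLast?_eq_getElem?, hv.2.1]; rfl)
  induction n with
  | zero => exact fun k hk h hi => ⟨k, h, hi, last k hk h⟩
  | succ n ih =>
    intro k hk h hi
    by_cases hc : ins u v (p (k + 1))
    · have h1 : k < w.length := lt_of_not_ge fun h2 => last k h2 h hc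
      exact ih (k + 1) (by omega) (h.succ h1 fun e => kap_one hf ht e hc) hc
    · exact ⟨k, h, hi, hc⟩

theorem kap_run (hf : Fit τ η w p) (ht : Thr u v) {k : ℕ} (h1 : k < w.length)
    (hi : ins u v (p (k + 1))) : ∃ j, InRun w j (k + 1) :=
  exists_inRun h1 fun e => kap_one hf ht e hi

theorem kap_kap : StmtKap := by
  intro τ η w p u v hv hf ht
  have a : ∀ j ∈ met u v w p, ∃ a, InRun w j (a + 1) ∧ ¬ ins u v (p a) ∧ ins u v (p (a + 1)) :=
    fun j hj => by
      obtain ⟨k, h1, h2⟩ := mem_met.1 hj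
      exact kap_enter hv hf ht k h1 h2
  have b : ∀ j ∈ met u v w p, ∃ b, InRun w j b ∧ ins u v (p b) ∧ ¬ ins u v (p (b + 1)) :=
    fun j hj => by
      obtain ⟨k, h1, h2⟩ := mem_met.1 hj
      exact kap_exit hv hf ht w.length k (by omega) h1 h2
  choose! f hf1 hf2 using a
  choose! g hg1 hg2 using b
  rw [kap_split, two_mul]
  refine Nat.add_le_add (card_le_card_of_injOn f (fun j hj => ?_) fun j hj j' hj' e => ?_)
    (card_le_card_of_injOn g (fun j hj => ?_) fun j hj j' hj' e => ?_)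
  · have := (hf1 j hj).le
    exact mem_coe.2 (mem_filter.2 ⟨mem_range.2 (by omega), hf2 j hj⟩)
  · exact (hf1 j hj).unique (e ▸ hf1 j' hj')
  · have := (hg1 j hj).le
    exact mem_coe.2 (mem_filter.2 ⟨mem_range.2 (by omega), hg2 j hj⟩)
  · exact (hg1 j hj).unique (e ▸ hg1 j' hj')

theorem kap_aux (S M : Finset ℕ) (x : ℕ) (c : Prop) [Decidable c] (hx : x ∈ S → c)
    (h : (S.erase x).card ≤ M.card) : S.card ≤ M.card + if c then 1 else 0 := by
  split_ifs with hc
  · have := pred_card_le_card_erase (s := S) (a := x)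
    omega
  · rwa [erase_eq_of_notMem fun h' => hc (hx h')] at h

theorem kap_conv : StmtCl := by
  intro τ η w p u v hv hf ht hc
  refine ⟨?_, fun j hj => ?_⟩
  swap
  · obtain ⟨k, h1, h2⟩ := mem_met.1 hj
    exact kap_exit hv hf ht w.length k (by omega) h1 h2
  have r : ∀ k, ∃ j, (∃ j', InRun w j' k) → InRun w j k := fun k => by
    by_cases h : ∃ j', InRun w j' k
    · exact ⟨h.choose, fun _ => h.choose_spec⟩
    · exact ⟨0, fun h' => absurd h' h⟩
  choose ρ hρ using r
  have a := kap_aux ((range (w.length + 1)).filter fun k => ¬ ins u v (p k) ∧ ins u v (p (k + 1)))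
    (met u v w p) w.length (η = 0)
    (fun h => by have := (mem_filter.1 h).2.2; rwa [hf.h1, ins_vertex ht] at this) (by
      have key : ∀ k ∈ ((range (w.length + 1)).filter
          fun k => ¬ ins u v (p k) ∧ ins u v (p (k + 1))).erase w.length,
          InRun w (ρ (k + 1)) (k + 1) ∧ ¬ ins u v (p k) ∧ ins u v (p (k + 1)) := fun k hk => by
        obtain ⟨h1, h2⟩ := mem_erase.1 hk
        obtain ⟨h3, h4⟩ := mem_filter.1 h2
        rw [mem_range] at h3
        exact ⟨hρ _ (kap_run hf ht (by omega) h4.2), h4⟩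
      refine card_le_card_of_injOn (fun k => ρ (k + 1)) (fun k hk => ?_) fun k hk k' hk' e => ?_
      · exact mem_coe.2 (mem_met.2 ⟨k + 1, (key k hk).1, (key k hk).2.2⟩)
      · obtain ⟨a1, a2, a3⟩ := key k hk
        obtain ⟨b1, b2, b3⟩ := key k' hk'
        simp only at e
        rw [← e] at b1
        rcases lt_trichotomy k k' with h | h | h
        · rcases (Nat.succ_le_of_lt h).eq_or_lt with h' | h'
          · exact absurd (h' ▸ a3) b2
          · exact absurd (hc _ _ _ _ a1 b1 h' (Nat.lt_succ_self _) a3 b3) b2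
        · exact h
        · rcases (Nat.succ_le_of_lt h).eq_or_lt with h' | h'
          · exact absurd (h' ▸ b3) a2
          · exact absurd (hc _ _ _ _ b1 a1 h' (Nat.lt_succ_self _) b3 a3) a2)
  have b := kap_aux ((range (w.length + 1)).filter fun k => ins u v (p k) ∧ ¬ ins u v (p (k + 1)))
    (met u v w p) 0 (τ = 0)
    (fun h => by have := (mem_filter.1 h).2.1; rwa [hf.h0, ins_vertex ht] at this) (by
      have key : ∀ k ∈ ((range (w.length + 1)).filter
          fun k => ins u v (p k) ∧ ¬ ins u v (p (k + 1))).erase 0,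
          InRun w (ρ k) k ∧ ins u v (p k) ∧ ¬ ins u v (p (k + 1)) := fun k hk => by
        obtain ⟨h1, h2⟩ := mem_erase.1 hk
        obtain ⟨h3, h4⟩ := mem_filter.1 h2
        rw [mem_range] at h3
        obtain ⟨i, rfl⟩ : ∃ i, k = i + 1 := ⟨k - 1, by omega⟩
        exact ⟨hρ _ (kap_run hf ht (by omega) h4.1), h4⟩
      refine card_le_card_of_injOn ρ (fun k hk => ?_) fun k hk k' hk' e => ?_
      · exact mem_coe.2 (mem_met.2 ⟨k, (key k hk).1, (key k hk).2.1⟩)
      · obtain ⟨a1, a2, a3⟩ := key k hk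
        obtain ⟨b1, b2, b3⟩ := key k' hk'
        rw [← e] at b1
        rcases lt_trichotomy k k' with h | h | h
        · rcases (Nat.succ_le_of_lt h).eq_or_lt with h' | h'
          · exact absurd (by rw [← h'] at b2; exact b2) a3
          · exact absurd (hc _ _ _ _ a1 b1 (Nat.lt_succ_self _) h' a2 b2) a3
        · exact h
        · rcases (Nat.succ_le_of_lt h).eq_or_lt with h' | h'
          · exact absurd (by rw [← h'] at a2; exact a2) b3
          · exact absurd (hc _ _ _ _ b1 a1 (Nat.lt_succ_self _) h' b2 a2) b3)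
  have ne : ¬ (τ = 0 ∧ η = 0) := by
    rintro ⟨rfl, rfl⟩
    exact hf.ne (a := 0) (b := w.length + 1) (by omega) le_rfl (by omega) (hf.h0.trans hf.h1.symm)
  rw [kap_split]
  by_cases h1 : τ = 0 <;> by_cases h2 : η = 0 <;>
    simp only [h1, h2, if_true, if_false, true_or, or_true, or_self, and_self, not_true] at a b ne ⊢ <;>
    omega

theorem kap_step (hf : Fit τ η w p) (ht : Thr u v) (O : Finset ℕ)
    (hO : ∀ i, i ∈ O ↔ i < w.length ∧ w[i]? ≠ some 1 ∧ ¬ ins u v (p (i + 1))) (hne : O.Nonempty) :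
    ∃ u' v', ∃ i₀ ∈ O, Thr u' v' ∧ ∀ i, i < w.length → w[i]? ≠ some 1 →
      (ins u' v' (p (i + 1)) ↔ ins u v (p (i + 1)) ∨ i = i₀) := by
  obtain ⟨t1, t2, t3, t4⟩ := ht
  have zone : ∀ i, i < w.length → w[i]? ≠ some 1 →
      (0 < p (i + 1) ∧ p (i + 1) < 1) ∨ (2 < p (i + 1) ∧ p (i + 1) < 3) := fun i h1 h2 => by
    have m := hf.mem i w[i] (List.getElem?_eq_getElem h1)
    rw [List.getElem?_eq_getElem h1] at h2
    generalize w[i] = x at m h2
    fin_cases x
    · left; simpa using m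
    · exact absurd rfl h2
    · right; norm_num at m; exact m
  have inj : ∀ i i', i < w.length → i' < w.length → p (i + 1) = p (i' + 1) → i = i' :=
    fun i i' h h' e => Nat.succ_injective
      (hf.inj (Set.mem_Iic.2 (by omega)) (Set.mem_Iic.2 (by omega)) e)
  obtain ⟨a, ha, hmin⟩ := exists_min_image O (fun i => p (i + 1)) hne
  obtain ⟨b, hb, hmax⟩ := exists_max_image O (fun i => p (i + 1)) hne
  obtain ⟨a1, a2, a3⟩ := (hO a).1 ha
  obtain ⟨b1, b2, b3⟩ := (hO b).1 hb
  simp only [ins, not_or, not_le] at a3 b3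
  rcases zone a a1 a2 with z | z
  · refine ⟨p (a + 1), v, a, ha, ⟨z.1.le, z.2, t3, t4⟩, fun i h1 h2 => ⟨fun h => ?_, ?_⟩⟩
    · by_cases hc : ins u v (p (i + 1))
      · exact Or.inl hc
      · have := hmin i ((hO i).2 ⟨h1, h2, hc⟩)
        rcases h with h | h
        · exact Or.inr (inj _ _ h1 a1 (le_antisymm h this))
        · exact Or.inl (Or.inr h)
    · rintro ((h | h) | rfl)
      · exact Or.inl (h.trans a3.1.le)
      · exact Or.inr h
      · exact Or.inl le_rfl
  · have := hmin b hb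
    have zb := (zone b b1 b2).resolve_left fun h => by linarith [h.2, z.1]
    refine ⟨u, p (b + 1), b, hb, ⟨t1, t2, zb.1, zb.2.le⟩, fun i h1 h2 => ⟨fun h => ?_, ?_⟩⟩
    · by_cases hc : ins u v (p (i + 1))
      · exact Or.inl hc
      · have := hmax i ((hO i).2 ⟨h1, h2, hc⟩)
        rcases h with h | h
        · exact Or.inl (Or.inl h)
        · exact Or.inr (inj _ _ h1 b1 (le_antisymm this h))
    · rintro ((h | h) | rfl)
      · exact Or.inl h
      · exact Or.inr (b3.2.le.trans h)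
      · exact Or.inr le_rfl

theorem kap_sw : StmtSw := by
  intro τ η w p r hf hr
  have pt : ∀ j k, InRun w j k → ∃ i, k = i + 1 ∧ i < w.length ∧ w[i]? ≠ some 1 := fun j k h => by
    have h1 := h.1
    have h2 := h.le
    exact ⟨k - 1, by omega, by omega, h.ne_one (by omega) (by omega)⟩
  have key : ∀ n u v (O : Finset ℕ), Thr u v → O.card = n →
      (∀ i, i ∈ O ↔ i < w.length ∧ w[i]? ≠ some 1 ∧ ¬ ins u v (p (i + 1))) →
      (met u v w p).card ≤ r → ∃ u v, Thr u v ∧ (met u v w p).card = r := by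
    intro n
    induction n using Nat.strong_induction_on with
    | _ n ih =>
    intro u v O ht hn hO hm
    rcases hm.eq_or_lt with hm | hm
    · exact ⟨u, v, ht, hm⟩
    obtain ⟨j, hj1, hj2⟩ := exists_mem_notMem_of_card_lt_card (hm.trans_le hr)
    have hj : InRun w j (j + 1) :=
      ⟨Nat.lt_succ_self j, by rw [Nat.add_sub_cancel_left]; exact (mem_filter.1 hj1).2⟩
    have hjO : j ∈ O := (hO j).2 ⟨hj.le, hj.ne_one le_rfl (Nat.lt_succ_self j),
      fun h => hj2 (mem_met.2 ⟨j + 1, hj, h⟩)⟩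
    obtain ⟨u', v', i₀, hi₀, ht', h'⟩ := kap_step hf ht O hO ⟨j, hjO⟩
    obtain ⟨j₀, hj₀⟩ := exists_inRun ((hO i₀).1 hi₀).1 ((hO i₀).1 hi₀).2.1
    refine ih (O.erase i₀).card (hn ▸ card_erase_lt_of_mem hi₀) u' v' _ ht' rfl (fun i => ?_) ?_
    · rw [mem_erase, hO]
      constructor
      · rintro ⟨a, b, c, d⟩
        exact ⟨b, c, fun h => ((h' i b c).1 h).elim d a⟩
      · rintro ⟨b, c, d⟩
        exact ⟨fun e => d ((h' i b c).2 (Or.inr e)), b, c, fun e => d ((h' i b c).2 (Or.inl e))⟩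
    · refine (card_le_card (t := insert j₀ (met u v w p)) fun x hx => ?_).trans
        ((card_insert_le _ _).trans hm)
      obtain ⟨k, h1, h2⟩ := mem_met.1 hx
      obtain ⟨i, rfl, b, c⟩ := pt x k h1
      rcases (h' i b c).1 h2 with h | rfl
      · exact mem_insert_of_mem (mem_met.2 ⟨_, h1, h⟩)
      · rw [h1.unique hj₀]; exact mem_insert_self _ _
  refine key _ 0 3 ((range w.length).filter fun i => w[i]? ≠ some 1 ∧ ¬ ins 0 3 (p (i + 1)))
    ⟨le_rfl, by norm_num, by norm_num, le_rfl⟩ rfl (fun i => by rw [mem_filter, mem_range]) ?_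
  rw [eq_empty_of_forall_notMem (s := met 0 3 w p) fun x hx => ?_]
  · simp
  · obtain ⟨k, h1, h2⟩ := mem_met.1 hx
    obtain ⟨i, rfl, b, -⟩ := pt x k h1
    have m := hf.mem i w[i] (List.getElem?_eq_getElem b)
    have a1 : (0 : ℚ) ≤ (w[i].val : ℚ) := Nat.cast_nonneg _
    have a2 : (w[i].val : ℚ) + 1 ≤ 3 := by exact_mod_cast w[i].isLt
    rcases h2 with h2 | h2 <;> linarith [m.1, m.2]

theorem kap_cl : StmtKap ∧ StmtCl ∧ StmtSw := ⟨kap_kap, kap_conv, kap_sw⟩

end Pool.Agent.MP_d5eec5_gt.H77
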