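import Pool.Agent.MP_d5eec5_gt.H48.Basic

/-! Words with few long runs are few. -/

namespace Pool.Agent.MP_d5eec5_gt.H48

open Finset Filter

noncomputable section

def nx (a : ℕ) (x : Bool) : ℕ := if x then a + 1 else 0

def st (a : ℕ) (β : ℕ → Bool) : ℕ → ℕ
  | 0 => a
  | i + 1 => nx (st a β i) (β i)

def pr (d : ℝ) (a : ℕ) (x : Bool) : ℝ :=
  if a = 0 then (if x then d else 1 - d) else if x then a / (a + 1) else 1 / (a + 1)

def Wt (d : ℝ) (a : ℕ) (β : ℕ → Bool) (m : ℕ) : ℝ := ∏ i ∈ range m, pr d (st a β i) (β i)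

def cs (d : ℝ) (a : ℕ) (x : Bool) : ℝ :=
  if x then (if a = 0 then Real.log (2 / d) else 2 / a) else 2 * d

def allL : ℕ → Finset (List Bool)
  | 0 => {[]}
  | m + 1 => (allL m).image (true :: ·) ∪ (allL m).image (false :: ·)

theorem mem_allL (l : List Bool) : l ∈ allL l.length := by
  induction l with
  | nil => simp [allL]
  | cons x l ih =>
    simp only [List.length_cons, allL, mem_union, mem_image]
    cases x
    · exact Or.inr ⟨l, ih, rfl⟩
    · exact Or.inl ⟨l, ih, rfl⟩

theorem st_succ (a : ℕ) (β : ℕ → Bool) (i : ℕ) :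
    st a β (i + 1) = st (nx a (β 0)) (fun j => β (j + 1)) i := by
  induction i with
  | zero => rfl
  | succ i ih => rw [st, ih]; rfl

theorem pr_nn {d : ℝ} (h0 : 0 < d) (h1 : d ≤ 1 / 2) (a : ℕ) (x : Bool) : 0 ≤ pr d a x := by
  unfold pr
  split_ifs
  · exact h0.le
  · linarith
  · positivity
  · positivity

theorem pr_sum (d : ℝ) (a : ℕ) : pr d a true + pr d a false = 1 := by
  unfold pr
  by_cases h : a = 0
  · simp [h]
  · simp only [h, if_false, if_true, Bool.false_eq_true]
    field_simp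

theorem wt_cons (d : ℝ) (a m : ℕ) (x : Bool) (l : List Bool) :
    Wt d a (fun i => (x :: l).getD i false) (m + 1) =
      pr d a x * Wt d (nx a x) (fun i => l.getD i false) m := by
  unfold Wt
  rw [prod_range_succ', mul_comm]
  simp only [st_succ, List.getD_cons_succ, List.getD_cons_zero]
  rfl

theorem kraft (d : ℝ) (m : ℕ) : ∀ a, ∑ l ∈ allL m, Wt d a (fun i => l.getD i false) m = 1 := by
  induction m with
  | zero => intro a; simp [allL, Wt]
  | succ m ih =>
    intro a
    rw [allL, sum_union, sum_image (fun _ _ _ _ h => (List.cons.inj h).2),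
      sum_image (fun _ _ _ _ h => (List.cons.inj h).2)]
    · simp only [wt_cons, ← mul_sum, ih, mul_one, pr_sum]
    · rw [disjoint_left]
      intro l h1 h2
      obtain ⟨x, -, rfl⟩ := mem_image.1 h1
      obtain ⟨y, -, hy⟩ := mem_image.1 h2
      exact absurd (List.cons.inj hy).1 (by simp)

theorem step {d : ℝ} (h0 : 0 < d) (h1 : d ≤ 1 / 2) (a : ℕ) (x : Bool) :
    ((nx a x : ℝ) + 1) * Real.exp (-cs d a x) ≤ (a + 1) * pr d a x := by
  have e2 : Real.exp (-(2 * d)) ≤ 1 - d := by
    have := Real.add_one_le_exp (2 * d)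
    rw [Real.exp_neg, inv_le_iff_one_le_mul₀ (Real.exp_pos _)]
    nlinarith
  cases x
  · simp only [nx, cs, pr, Bool.false_eq_true, if_false, Nat.cast_zero, zero_add, one_mul]
    split_ifs with h
    · simpa [h] using e2
    · rw [mul_one_div_cancel (by positivity)]; linarith
  · simp only [nx, cs, pr, if_true]
    split_ifs with h
    · rw [Real.exp_neg, Real.exp_log (by positivity), h]
      apply le_of_eq
      push_cast
      field_simp
      ring
    · have ha : (0 : ℝ) < a := Nat.cast_pos.2 (Nat.pos_of_ne_zero h)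
      have := Real.add_one_le_exp (2 / a)
      rw [mul_div_cancel₀ _ (by positivity), Real.exp_neg, ← div_eq_mul_inv,
        div_le_iff₀ (Real.exp_pos _)]
      have e : (a : ℝ) * (2 / a + 1) = a + 1 + 1 := by field_simp; ring
      push_cast
      nlinarith

theorem wt_ge {d : ℝ} (h0 : 0 < d) (h1 : d ≤ 1 / 2) (β : ℕ → Bool) (m : ℕ) :
    ((st 0 β m : ℝ) + 1) * Real.exp (-∑ i ∈ range m, cs d (st 0 β i) (β i)) ≤ Wt d 0 β m := by
  induction m with
  | zero => simp [st, Wt]
  | succ m ih =>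
    unfold Wt at ih ⊢
    rw [sum_range_succ, prod_range_succ, neg_add, Real.exp_add, st]
    have s := step h0 h1 (st 0 β m) (β m)
    have p := pr_nn h0 h1 (st 0 β m) (β m)
    have e := (Real.exp_pos (-∑ i ∈ range m, cs d (st 0 β i) (β i))).le
    nlinarith [mul_le_mul_of_nonneg_left s e, mul_le_mul_of_nonneg_right ih p]

theorem st_spec (β : ℕ → Bool) (i : ℕ) : st 0 β i ≤ i ∧
    (∀ j, i - st 0 β i ≤ j → j < i → β j = true) ∧
    (st 0 β i = i ∨ β (i - st 0 β i - 1) = false) := by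
  induction i with
  | zero => simp [st]
  | succ i ih =>
    obtain ⟨a, b, c⟩ := ih
    rw [st, nx]
    split_ifs with h
    · refine ⟨by omega, fun j h1 h2 => ?_, ?_⟩
      · rcases lt_or_ge j i with h3 | h3
        · exact b j (by omega) h3
        · rwa [show j = i by omega]
      · rw [show i + 1 - (st 0 β i + 1) - 1 = i - st 0 β i - 1 by omega]
        exact c.imp (by omega) id
    · exact ⟨by omega, fun j h1 h2 => by omega, Or.inr (by simpa using h)⟩

theorem cnt_le {w : Wd} (hw : Valid w) (β : ℕ → Bool)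
    (hβ : ∀ i < w.length - 2, β i = true ↔ w[i]? = w[i + 2]?) (t : ℕ) :
    ((range (w.length - 2)).filter fun i => β i = true ∧ st 0 β i = t).card ≤
      ∑ o : Fin 3, (runs o w (t + 3)).card := by
  rw [← card_sigma]
  refine card_le_card_of_surjOn (fun x => x.2 + t) fun i hi => ?_
  obtain ⟨h1, h2, h3⟩ := mem_filter.1 (mem_coe.1 hi)
  rw [mem_range] at h1
  obtain ⟨a, b, c⟩ := st_spec β i
  rw [h3] at a b c
  obtain ⟨o, ho1, ho2⟩ := ex_third w[i - t]? w[i - t + 1]?
  have key : ∀ j, j < t + 2 → w[i - t + j]? ≠ some o ∧ w[i - t + (j + 1)]? ≠ some o := by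
    intro j
    induction j with
    | zero => exact fun _ => ⟨ho1, ho2⟩
    | succ j ih =>
      intro hj
      refine ⟨(ih (by omega)).2, ?_⟩
      have : β (i - t + j) = true := by
        rcases lt_or_ge (i - t + j) i with h | h
        · exact b _ (by omega) h
        · rwa [show i - t + j = i by omega]
      rw [show i - t + (j + 1 + 1) = i - t + j + 2 by omega, ← (hβ _ (by omega)).1 this]
      exact (ih (by omega)).1
  refine ⟨⟨o, i - t⟩, mem_coe.2 (mem_sigma.2 ⟨mem_univ _, (mem_runs (by omega)).2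
    ⟨by simp only; omega, ?_, fun j hj => ?_⟩⟩), by simp only; omega⟩
  · rcases Nat.eq_zero_or_pos (i - t) with h | h
    · exact Or.inl h
    · right
      have c' := c.resolve_left (by omega)
      have n1 : w[i - t - 1]? ≠ w[i - t - 1 + 2]? := fun e => by
        rw [(hβ _ (by omega)).2 e] at c'; exact absurd c' (by simp)
      have n2 := hw.ne (i := i - t - 1) (by omega)
      have n3 := hw.ne (i := i - t) (by omega)
      rw [show i - t - 1 + 2 = i - t + 1 by omega] at n1
      rw [show i - t - 1 + 1 = i - t by omega] at n2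
      obtain ⟨x, hx⟩ := ex_some (w := w) (i := i - t + 1) (by omega)
      rw [hx] at n1 n3 ho2
      exact third' (b := w[i - t]?) (d := x) (nn (by simp only; omega)) (nn (by omega)) (by simp)
        n2 n1 n3 ho1.symm ho2.symm
  · rcases Nat.eq_zero_or_pos j with h | h
    · rw [h]; exact ho1
    · have := (key (j - 1) (by omega)).2
      rwa [show j - 1 + 1 = j by omega] at this

theorem tail_sum (u : ℕ) (hu : 1 ≤ u) (m : ℕ) :
    ∑ t ∈ Ioc u (u + m), 1 / ((t : ℝ) * √t) ≤ 2 / √u - 2 / √(u + m : ℕ) := by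
  induction m with
  | zero => simp
  | succ m ih =>
    rw [← add_assoc, sum_Ioc_succ_top (by omega)]
    have h1 : (0 : ℝ) < √(u + m : ℕ) := Real.sqrt_pos.2 (Nat.cast_pos.2 (by omega))
    have h2 : (0 : ℝ) < √(u + m + 1 : ℕ) := Real.sqrt_pos.2 (Nat.cast_pos.2 (by omega))
    have e1 := Real.mul_self_sqrt (Nat.cast_nonneg (α := ℝ) (u + m))
    have e2 := Real.mul_self_sqrt (Nat.cast_nonneg (α := ℝ) (u + m + 1))
    set x := √((u + m : ℕ) : ℝ)
    set y := √((u + m + 1 : ℕ) : ℝ)
    have e3 : y * y = x * x + 1 := by rw [e1, e2]; push_cast; ring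
    have : 1 / (((u + m + 1 : ℕ) : ℝ) * y) ≤ 2 / x - 2 / y := by
      rw [← e2, div_sub_div _ _ h1.ne' h2.ne', div_le_div_iff₀ (by positivity) (by positivity)]
      have hxy : x ≤ y := by nlinarith
      have h5 : 1 ≤ 2 * y * (y - x) := by nlinarith [sq_nonneg (y - x)]
      have h6 : x * y ≤ y * y := by nlinarith
      nlinarith [mul_le_mul_of_nonneg_left h5 (mul_pos h2 h2).le]
    linarith

variable {I : Wd → ℕ}

theorem Geo.cost (h : Geo I) {d : ℝ} (h0 : 0 < d) (h1 : d ≤ 1 / 2) {q u : ℕ} (hu : 1 ≤ u)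
    (hq1 : 1 ≤ q) {w : Wd} (hw : Valid w) (hq : I w ≤ q ^ 2) (β : ℕ → Bool)
    (hβ : ∀ i < w.length - 2, β i = true ↔ w[i]? = w[i + 2]?) :
    ∑ i ∈ range (w.length - 2), cs d (st 0 β i) (β i) ≤ 78 * d * q +
      (Real.log (2 / d) + 2 * u) * MM w + 6 * (1 + Real.log (u + 59 * q ^ 3 : ℕ)) + 36 * q / √u := by
  set m := w.length - 2 with hm
  set T : ℕ → ℕ := fun t => ((range m).filter fun i => β i = true ∧ st 0 β i = t).card with hT
  have T1 : ∀ t, T t ≤ MM w := fun t => (cnt_le hw β hβ t).trans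
    (sum_le_sum fun o _ => card_le_card (runs_mono o w (by omega)))
  have T2 : ∀ t : ℕ, 1 ≤ t → (T t : ℝ) ≤ 3 + 9 * q / √t := fun t ht => by
    have hs : (0 : ℝ) < √t := Real.sqrt_pos.2 (Nat.cast_pos.2 ht)
    have one : ∀ o, ((runs o w (t + 3)).card : ℝ) ≤ 1 + 3 * q / √t := fun o => by
      have a := h.sq (o := o) (s := t / 2 + 1) (by omega) hw
      have b := card_le_card (runs_mono o w (show 2 * (t / 2 + 1) + 1 ≤ t + 3 by omega))
      set N := (runs o w (2 * (t / 2 + 1) + 1)).card - 1 with hN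
      have c : N ^ 2 * t ≤ 9 * q ^ 2 := by
        have := Nat.mul_le_mul_left (N ^ 2) (show t ≤ 2 * (t / 2 + 1) by omega)
        nlinarith
      have c' : ((N : ℝ) * √t) ^ 2 ≤ (3 * q) ^ 2 := by
        rw [mul_pow, Real.sq_sqrt (Nat.cast_nonneg _), mul_pow]
        exact_mod_cast c
      have c2 : (N : ℝ) ≤ 3 * q / √t := by
        rw [le_div_iff₀ hs]
        exact (pow_le_pow_iff_left₀ (by positivity) (by positivity) two_ne_zero).1 c'
      have : ((runs o w (t + 3)).card : ℝ) ≤ N + 1 := by exact_mod_cast (by omega)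
      linarith
    have a : (T t : ℝ) ≤ ∑ o : Fin 3, ((runs o w (t + 3)).card : ℝ) := by
      exact_mod_cast cnt_le hw β hβ t
    rw [Fin.sum_univ_three] at a
    have e : (9 : ℝ) * q / √t = 3 * (3 * q / √t) := by ring
    linarith [one 0, one 1, one 2]
  set L := u + 59 * q ^ 3 with hL
  have hmL : m ≤ L := by have := h.len hw hq hq1; omega
  rw [← sum_filter_add_sum_filter_not (range m) (fun i => β i = true)]
  have p2 : ∑ i ∈ (range m).filter (fun i => ¬ β i = true), cs d (st 0 β i) (β i) ≤ 78 * d * q := by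
    have e : (range m).filter (fun i => ¬ β i = true) = chg w :=
      filter_congr fun i hi => not_congr (hβ i (mem_range.1 hi))
    have : ∑ i ∈ (range m).filter (fun i => ¬ β i = true), cs d (st 0 β i) (β i) =
        ∑ i ∈ chg w, 2 * d := sum_congr e fun i hi => by
      rw [← e] at hi
      simp only [cs, (mem_filter.1 hi).2, if_false, Bool.false_eq_true]
    rw [this, sum_const, nsmul_eq_mul]
    have : ((chg w).card : ℝ) ≤ 39 * q := by exact_mod_cast h.chg_le' hw hq hq1
    nlinarith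
  have p1 : ∑ i ∈ (range m).filter (fun i => β i = true), cs d (st 0 β i) (β i) =
      ∑ t ∈ range (L + 1), T t * cs d t true := by
    rw [← sum_fiberwise_of_maps_to (s := (range m).filter fun i => β i = true) (t := range (L + 1))
      (g := st 0 β) fun i hi => mem_range.2 (by
        have := (st_spec β i).1; have := mem_range.1 (mem_filter.1 hi).1; omega)]
    refine sum_congr rfl fun t _ => ?_
    rw [filter_filter, ← nsmul_eq_mul, ← sum_const]
    exact sum_congr rfl fun i hi => by rw [(mem_filter.1 hi).2.1, (mem_filter.1 hi).2.2]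
  have hlog : 0 ≤ Real.log (2 / d) := Real.log_nonneg (by rw [le_div_iff₀ h0]; linarith)
  have p3 : ∑ t ∈ range (L + 1), T t * cs d t true =
      T 0 * Real.log (2 / d) + ∑ t ∈ Ioc 0 u, T t * (2 / t : ℝ) + ∑ t ∈ Ioc u L, T t * (2 / t : ℝ) := by
    rw [add_assoc (T 0 * Real.log (2 / d) : ℝ), sum_Ioc_consecutive _ (Nat.zero_le _) (by omega), range_eq_Ico,
      sum_eq_sum_Ico_succ_bot (by omega)]
    congr 1
    refine sum_congr (by ext t; simp only [mem_Ico, mem_Ioc]; omega) fun t ht => ?_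
    simp only [cs, if_true, if_neg (mem_Ioc.1 ht).1.ne']
  have p4 : ∑ t ∈ Ioc 0 u, T t * (2 / t : ℝ) ≤ 2 * u * MM w := by
    have : ∑ t ∈ Ioc 0 u, T t * (2 / t : ℝ) ≤ ∑ t ∈ Ioc 0 u, 2 * (MM w : ℝ) := by
      refine sum_le_sum fun t ht => ?_
      have a : (T t : ℝ) ≤ MM w := by exact_mod_cast T1 t
      have b : (2 / t : ℝ) ≤ 2 := div_le_self (by norm_num) (by exact_mod_cast (mem_Ioc.1 ht).1)
      have c : (0 : ℝ) ≤ 2 / t := by positivity
      nlinarith [Nat.cast_nonneg (α := ℝ) (T t)]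
    rw [sum_const, Nat.card_Ioc, nsmul_eq_mul, Nat.sub_zero] at this
    linarith
  have p5 : ∑ t ∈ Ioc u L, T t * (2 / t : ℝ) ≤ 6 * (1 + Real.log L) + 36 * q / √u := by
    have a : ∑ t ∈ Ioc u L, T t * (2 / t : ℝ) ≤
        ∑ t ∈ Ioc u L, (6 * (t : ℝ)⁻¹ + 18 * q * (1 / (t * √t))) := by
      refine sum_le_sum fun t ht => ?_
      have ht1 : 1 ≤ t := by have := (mem_Ioc.1 ht).1; omega
      have hs : (0 : ℝ) < √t := Real.sqrt_pos.2 (Nat.cast_pos.2 ht1)
      have ht0 : (0 : ℝ) < t := Nat.cast_pos.2 ht1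
      refine (mul_le_mul_of_nonneg_right (T2 t ht1) (by positivity)).trans (le_of_eq ?_)
      field_simp
      ring
    rw [sum_add_distrib, ← mul_sum, ← mul_sum] at a
    have b := tail_sum u hu (59 * q ^ 3)
    have b' : ∑ t ∈ Ioc u L, 1 / ((t : ℝ) * √t) ≤ 2 / √u :=
      b.trans (sub_le_self _ (by positivity))
    have c : ∑ t ∈ Ioc u L, (t : ℝ)⁻¹ ≤ 1 + Real.log L := by
      refine le_trans ?_ (harmonic_le_one_add_log L)
      rw [harmonic_eq_sum_Icc]
      push_cast
      exact sum_le_sum_of_subset_of_nonneg (fun t ht => by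
        simp only [mem_Icc, mem_Ioc] at ht ⊢; omega) fun _ _ _ => by positivity
    have e : (36 : ℝ) * q / √u = 18 * q * (2 / √u) := by ring
    have := mul_le_mul_of_nonneg_left b' (show (0 : ℝ) ≤ 18 * q by positivity)
    linarith
  have p6 : (T 0 : ℝ) * Real.log (2 / d) ≤ MM w * Real.log (2 / d) :=
    mul_le_mul_of_nonneg_right (by exact_mod_cast T1 0) hlog
  rw [p1, p3]
  linarith

theorem fib_le {d c : ℝ} (h0 : 0 < d) (h1 : d ≤ 1 / 2) (F : Finset Wd) (L : ℕ) (x : Option (Fin 3))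
    (hF : ∀ w ∈ F, Valid w ∧ w.length = L ∧ w[1]? = x ∧ ∀ β : ℕ → Bool,
      (∀ i < w.length - 2, β i = true ↔ w[i]? = w[i + 2]?) →
      ∑ i ∈ range (w.length - 2), cs d (st 0 β i) (β i) ≤ c) : (F.card : ℝ) ≤ Real.exp c := by
  set f : Wd → List Bool := fun w => (List.range (L - 2)).map fun i => decide (w[i]? = w[i + 2]?)
    with hf
  have fget : ∀ w i, i < L - 2 → ((f w).getD i false = true ↔ w[i]? = w[i + 2]?) := fun w i hi => by
    simp [hf, List.getD_eq_getElem?_getD, List.getElem?_range hi]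
  have inj : Set.InjOn f F := fun w hw w' hw' e => by
    obtain ⟨a1, a2, a3, -⟩ := hF w hw
    obtain ⟨b1, b2, b3, -⟩ := hF w' hw'
    have key : ∀ i, w[i]? = w'[i]? ∧ w[i + 1]? = w'[i + 1]? := by
      intro i
      induction i with
      | zero => exact ⟨((valid_iff w).1 a1).1.trans ((valid_iff w').1 b1).1.symm, a3.trans b3.symm⟩
      | succ i ih =>
        refine ⟨ih.2, ?_⟩
        rcases lt_or_ge i (L - 2) with hi | hi
        · have g := (fget w i hi).symm.trans (e ▸ fget w' i hi)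
          by_cases hc : w[i]? = w[i + 2]?
          · rw [← hc, ← g.1 hc]; exact ih.1
          · have hc' := fun t => hc (g.2 t)
            obtain ⟨y, hy⟩ := ex_some (w := w) (i := i) (by omega)
            refine third' (b := w[i + 1]?) (d := y) (nn (by omega)) (nn (by omega)) (nn (by omega))
              (a1.ne (i := i + 1) (by omega)).symm (hy ▸ Ne.symm hc)
              (hy ▸ (a1.ne (i := i) (by omega)).symm) ?_ ?_
            · rw [ih.2]; exact (b1.ne (i := i + 1) (by omega)).symm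
            · rw [← hy, ih.1]; exact Ne.symm hc'
        · rw [List.getElem?_eq_none (by omega), List.getElem?_eq_none (by omega)]
    exact List.ext_getElem? fun i => (key i).1
  have s1 : ∑ l ∈ F.image f, Wt d 0 (fun i => l.getD i false) (L - 2) ≤ 1 := by
    rw [← kraft d (L - 2) 0]
    refine sum_le_sum_of_subset_of_nonneg (fun l hl => ?_)
      fun _ _ _ => prod_nonneg fun _ _ => pr_nn h0 h1 _ _
    obtain ⟨w, -, rfl⟩ := mem_image.1 hl
    have := mem_allL (f w)
    rwa [show (f w).length = L - 2 by simp [hf]] at this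
  rw [sum_image inj] at s1
  have s2 : ∑ w ∈ F, Real.exp (-c) ≤ ∑ w ∈ F, Wt d 0 (fun i => (f w).getD i false) (L - 2) := by
    refine sum_le_sum fun w hw => ?_
    obtain ⟨-, a2, -, a4⟩ := hF w hw
    have a := a4 (fun i => (f w).getD i false) fun i hi => fget w i (a2 ▸ hi)
    rw [a2] at a
    refine le_trans ?_ (wt_ge h0 h1 _ _)
    exact (Real.exp_le_exp.2 (neg_le_neg a)).trans (le_mul_of_one_le_left (Real.exp_pos _).le
      (le_add_of_nonneg_left (Nat.cast_nonneg _)))
  rw [sum_const, nsmul_eq_mul, Real.exp_neg] at s2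
  have := s2.trans s1
  rwa [mul_inv_le_iff₀ (Real.exp_pos _), one_mul] at this

theorem log_small (a η : ℝ) (hη : 0 < η) (ha : 0 < a) :
    ∃ q₀ : ℕ, ∀ q ≥ q₀, a * (1 + Real.log (q : ℕ)) ≤ η * q := by
  have h1 := (Real.isLittleO_log_id_atTop.def (show 0 < η / (2 * a) by positivity)).and
    ((eventually_ge_atTop (2 * a / η)).and (eventually_ge_atTop 0))
  obtain ⟨q₀, h⟩ := eventually_atTop.1 (tendsto_natCast_atTop_atTop.eventually h1)
  refine ⟨q₀, fun q hq => ?_⟩
  obtain ⟨x, y, z⟩ := h q hq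
  rw [id, Real.norm_of_nonneg z] at x
  have x' := (le_abs_self _).trans x
  rw [div_le_iff₀ hη] at y
  have : a * Real.log q ≤ η / 2 * q := by
    have := mul_le_mul_of_nonneg_left x' ha.le
    refine this.trans (le_of_eq ?_)
    field_simp
  nlinarith

/-- words with few long runs -/
theorem Geo.atyp (h : Geo I) : ∃ e q₀ : ℕ, 1 ≤ e ∧ ∀ q ≥ q₀, ∀ F : Finset Wd,
    (∀ w ∈ F, Valid w ∧ I w ≤ q ^ 2 ∧ e * MM w ≤ q) → (F.card : ℝ) ≤ Real.exp (q / 20) := by
  obtain ⟨q₀, hq₀⟩ := log_small 2000 (1 / 80) (by norm_num) (by norm_num)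
  set d : ℝ := 1 / 7800 with hd
  set u : ℕ := 3600 ^ 2 with hu
  obtain ⟨e, he⟩ := exists_nat_ge (100 * (Real.log (2 / d) + 2 * u))
  refine ⟨e + 1, q₀ + u, by omega, fun q hq F hF => ?_⟩
  have hq1 : 1 ≤ q := by have : 1 ≤ u := by norm_num [hu]
                         omega
  have hqr : (1 : ℝ) ≤ q := by exact_mod_cast hq1
  have lq := Real.log_nonneg hqr
  have l60 : Real.log (60 * q ^ 3 : ℕ) ≤ 60 + 3 * Real.log q := by
    push_cast
    rw [Real.log_mul (by norm_num) (by positivity), Real.log_pow]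
    have := Real.log_le_sub_one_of_pos (show (0 : ℝ) < 60 by norm_num)
    push_cast
    linarith
  have q3 : q ≤ q ^ 3 := Nat.le_self_pow (by norm_num) q
  set c : ℝ := 3 / 100 * q + 6 * (61 + 3 * Real.log q) with hc
  have fib : ∀ y ∈ range (60 * q ^ 3) ×ˢ (univ : Finset (Option (Fin 3))),
      ((F.filter fun w => (w.length, w[1]?) = y).card : ℝ) ≤ Real.exp c := by
    intro y _
    refine fib_le (d := d) (by norm_num [hd]) (by norm_num [hd]) _ y.1 y.2 fun w hw => ?_
    obtain ⟨h1, h2⟩ := mem_filter.1 hw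
    obtain ⟨a1, a2, a3⟩ := hF w h1
    refine ⟨a1, by rw [← h2], by rw [← h2], fun β hβ => ?_⟩
    refine (h.cost (d := d) (u := u) (by norm_num [hd]) (by norm_num [hd]) (by norm_num [hu]) hq1
      a1 a2 β hβ).trans ?_
    have s : √(u : ℝ) = 3600 := by
      rw [hu, Nat.cast_pow, Real.sqrt_sq (Nat.cast_nonneg _)]; norm_num
    have b1 : Real.log (u + 59 * q ^ 3 : ℕ) ≤ Real.log (60 * q ^ 3 : ℕ) :=
      Real.log_le_log (Nat.cast_pos.2 (by positivity)) (Nat.cast_le.2 (by omega))
    have b2 : ((e : ℝ) + 1) * MM w ≤ q := by exact_mod_cast a3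
    have b3 := mul_le_mul_of_nonneg_right he (Nat.cast_nonneg (α := ℝ) (MM w))
    have b4 := Nat.cast_nonneg (α := ℝ) (MM w)
    rw [s, hc]
    have b5 : 78 * d * q = q / 100 := by rw [hd]; ring
    have b6 : (Real.log (2 / d) + 2 * u) * MM w ≤ q / 100 := by
      generalize Real.log (2 / d) + 2 * (u : ℝ) = z at b3 ⊢
      linarith
    generalize (Real.log (2 / d) + 2 * (u : ℝ)) * MM w = z at b6 ⊢
    generalize Real.log (u + 59 * q ^ 3 : ℕ) = z1 at b1 ⊢
    generalize Real.log (60 * q ^ 3 : ℕ) = z2 at b1 l60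
    linarith
  have tot : (F.card : ℝ) ≤ (60 * q ^ 3 : ℕ) * 4 * Real.exp c := by
    rw [card_eq_sum_card_fiberwise (t := range (60 * q ^ 3) ×ˢ (univ : Finset (Option (Fin 3))))
      (f := fun w => (w.length, w[1]?)) fun w hw => mem_coe.2 (mem_product.2 ⟨mem_range.2 (by
        have := h.len (hF w hw).1 (hF w hw).2.1 hq1; simp only; omega), mem_univ _⟩)]
    push_cast
    refine (sum_le_sum fib).trans (le_of_eq ?_)
    simp
  refine tot.trans ?_
  have e1 : ((60 * q ^ 3 : ℕ) : ℝ) * 4 ≤ Real.exp (63 + 3 * Real.log q) := by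
    have a : ((60 * q ^ 3 : ℕ) : ℝ) ≤ Real.exp (60 + 3 * Real.log q) := by
      rw [← Real.log_le_iff_le_exp (Nat.cast_pos.2 (by positivity))]; exact l60
    have b := Real.add_one_le_exp 3
    rw [show 63 + 3 * Real.log q = 60 + 3 * Real.log q + 3 by ring, Real.exp_add]
    exact mul_le_mul a (by linarith) (by norm_num) (Real.exp_pos _).le
  refine (mul_le_mul_of_nonneg_right e1 (Real.exp_pos _).le).trans ?_
  rw [← Real.exp_add, Real.exp_le_exp, hc]
  have := hq₀ q (by omega)
  linarith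

end

end Pool.Agent.MP_d5eec5_gt.H48
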