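import Pool.Agent.MP_d5eec5_gt.H77.KNum

/-! Every arc with the endpoints side by side is flat equivalent to a line diagram. -/

set_option autoImplicit false

namespace Pool.Agent.MP_d5eec5_gt.H77

open Pool.Agent.MP_d5eec5_gt.H48 Kind

theorem lf_chain {d : Bool} {s t : ℕ} {m : List ℕ} : ∀ (j : ℕ) {z C : List ℕ},
    Num d (s :: t :: m) (chain j) z C →
      ∃ m₁ m₂, m = m₁ ++ m₂ ∧ m₁.length = j ∧ z = s :: (m₁ ++ t :: m₂) := by
  intro j
  induction j with
  | zero =>
    intro z C h
    obtain ⟨rfl, _⟩ := Num.nil_iff.mp h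
    exact ⟨[], m, rfl, rfl, rfl⟩
  | succ j ih =>
    intro z C h
    rw [chain_succ] at h
    obtain ⟨z₁, C₁, C₂, h1, h2, _⟩ := Num.append_iff.mp h
    obtain ⟨m₁, m₂, rfl, e, rfl⟩ := ih h1
    obtain ⟨l₁, l₂, x, y, C', e1, e2, ⟨p, q, rfl, rfl, _⟩, h3, _⟩ := Num.cons_iff.mp h2
    obtain ⟨rfl, _⟩ := Num.nil_iff.mp h3
    have e3 : (s :: m₁) ++ t :: m₂ = l₁ ++ p :: q :: l₂ := by simpa using e1
    obtain ⟨rfl, e4⟩ := List.append_inj e3 (by simp; omega)
    simp only [List.cons.injEq] at e4
    obtain ⟨rfl, rfl⟩ := e4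
    exact ⟨m₁ ++ [q], l₂, by simp, by simp [e], by simp⟩

theorem lf_bot {d : Bool} : ∀ (k : ℕ) (l : List ℕ), l.length ≤ k → Dbl l → ∀ {z C : List ℕ},
    Num d [] (bot l) z C → ∃ g : ℕ → ℕ, z.map (fun x => (x + 1) / 2) = l.map g := by
  intro k
  induction k with
  | zero =>
    intro l hl _ z C h
    have : l = [] := List.length_eq_zero_iff.mp (by omega)
    subst this
    rw [bot_nil] at h
    obtain ⟨rfl, _⟩ := Num.nil_iff.mp h
    exact ⟨id, rfl⟩
  | succ k ih =>
    intro l hl hd z C h
    cases l with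
    | nil =>
      rw [bot_nil] at h
      obtain ⟨rfl, _⟩ := Num.nil_iff.mp h
      exact ⟨id, rfl⟩
    | cons a l =>
      have he := hd.erase
      have hn := hd.not_mem_erase
      obtain ⟨p, q, rfl, hp⟩ := List.eq_append_cons_of_mem hd.mem_tail
      have e1 : (p ++ a :: q).erase a = p ++ q := by
        rw [List.erase_append_right _ hp, List.erase_cons_head]
      have e2 : (p ++ a :: q).idxOf a = p.length := by
        rw [List.idxOf_append_of_notMem hp, List.idxOf_cons_self]; rfl
      rw [bot_cons, e1, e2] at h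
      rw [e1] at he hn
      obtain ⟨m, C₁, C₂, h1, h2, _⟩ := Num.append_iff.mp h
      simp only [List.length_cons, List.length_append] at hl
      obtain ⟨g, hg⟩ := ih _ (by simp; omega) he h1
      obtain ⟨l₁, l₂, x, y, C', e3, e4, ⟨rfl, t, ht, hy⟩, h3, _⟩ := Num.cons_iff.mp h2
      have : l₁ = [] := List.length_eq_zero_iff.mp e4
      subst this
      simp only [List.nil_append, List.append_nil] at e3 h3
      subst e3
      have : ∃ s s', y = [s, s'] ∧ (s' + 1) / 2 = (s + 1) / 2 := by
        rw [Nat.odd_iff] at ht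
        rcases hy with rfl | rfl
        · exact ⟨_, _, rfl, by omega⟩
        · exact ⟨_, _, rfl, by omega⟩
      obtain ⟨s, s', rfl, hs⟩ := this
      obtain ⟨m₁, m₂, rfl, e5, rfl⟩ := lf_chain _ h3
      rw [List.map_append, List.map_append] at hg
      obtain ⟨g1, g2⟩ := List.append_inj hg (by simp [e5])
      refine ⟨Function.update g a ((s + 1) / 2), ?_⟩
      have u1 : p.map (Function.update g a ((s + 1) / 2)) = p.map g :=
        List.map_congr_left fun b hb => Function.update_of_ne
          (by rintro rfl; exact hn (List.mem_append_left _ hb)) _ _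
      have u2 : q.map (Function.update g a ((s + 1) / 2)) = q.map g :=
        List.map_congr_left fun b hb => Function.update_of_ne
          (by rintro rfl; exact hn (List.mem_append_right _ hb)) _ _
      simp only [List.map_cons, List.map_append, u1, u2, g1, g2, hs, Function.update_self]

theorem lf_mir {d : Bool} {l l' C : List ℕ} {w : List Gen} (h : Num d l w l' C) :
    ∃ C', Num false (l'.map (· + 1)) (mir w) (l.map (· + 1)) C' := by
  induction h with
  | nil l => exact ⟨[], Num.nil _⟩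
  | @cons l₁ l₂ x y l' C k w h1 _ ih =>
    obtain ⟨C', h'⟩ := ih
    have hL : Loc false (mirK k) (y.map (· + 1)) (x.map (· + 1)) := by
      cases k with
      | cup =>
        obtain ⟨rfl, t, ht, hy⟩ := h1
        refine ⟨rfl, t + 1, ht.add_one, ?_⟩
        rcases hy with rfl | rfl <;> simp
      | cap =>
        obtain ⟨rfl, t, ht, hy⟩ := h1
        refine ⟨rfl, t + 1, ht.add_one, ?_⟩
        rcases hy with rfl | rfl <;> simp
      | cr b =>
        obtain ⟨s, t, rfl, rfl, _⟩ := h1
        exact ⟨t + 1, s + 1, rfl, rfl, by simp⟩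
      | up e =>
        obtain ⟨rfl, t, rfl, ht⟩ := h1
        exact ⟨rfl, t + 1, rfl, by rw [← ht, Nat.even_add_one, Nat.not_even_iff_odd]⟩
      | dn e =>
        obtain ⟨rfl, t, rfl, ht⟩ := h1
        exact ⟨rfl, t + 1, rfl, by rw [← ht, Nat.odd_add_one, Nat.not_odd_iff_even]⟩
    have h2 := Num.cons (l₁ := l₁.map (· + 1)) (l₂ := l₂.map (· + 1)) hL (Num.nil _)
    rw [mir_cons]
    simp only [List.map_append] at h' ⊢
    rw [List.length_map] at h2
    exact ⟨_, h'.append h2⟩

theorem lf_count_le (z : List ℕ) (f : ℕ → ℕ) (c p q : ℕ)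
    (hf : ∀ x, f x = c → x = p ∨ x = q) : (z.map f).count c ≤ z.count p + z.count q := by
  induction z with
  | nil => simp
  | cons a z ih =>
    simp only [List.map_cons, List.count_cons, beq_iff_eq]
    by_cases h : f a = c
    · rcases hf a h with e | e
      · rw [if_pos h, if_pos e]; omega
      · rw [if_pos h, if_pos e]; omega
    · rw [if_neg h]; omega

theorem lf_count_two {l : List ℕ} (g : ℕ → ℕ) {a b : ℕ} (hab : a ≠ b) (e : g a = g b) :
    l.count a + l.count b ≤ (l.map g).count (g a) := by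
  induction l with
  | nil => simp
  | cons x l ih =>
    simp only [List.map_cons, List.count_cons, beq_iff_eq]
    by_cases h1 : x = a
    · subst h1
      rw [if_pos rfl, if_neg hab, if_pos rfl]; omega
    · by_cases h2 : x = b
      · subst h2
        rw [if_neg h1, if_pos rfl, if_pos e.symm]; omega
      · rw [if_neg h1, if_neg h2]; omega

/-- The labels and the halved numbers have the same pattern; the partner of a number occurs. -/
theorem lf_inj {z l : List ℕ} (hz : z.Nodup) (hl : Dbl l) {g : ℕ → ℕ}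
    (e : z.map (fun x => (x + 1) / 2) = l.map g) :
    (∀ a ∈ l, ∀ b ∈ l, g a = g b → a = b) ∧ (∀ x ∈ z, x % 2 = 1 → x + 1 ∈ z) ∧
      ∀ x ∈ z, x % 2 = 0 → 1 ≤ x ∧ x - 1 ∈ z := by
  have c1 := List.nodup_iff_count_le_one.mp hz
  have inj : ∀ a ∈ l, ∀ b ∈ l, g a = g b → a = b := by
    intro a ha b hb hg
    by_contra hab
    have h1 := lf_count_two (l := l) g hab hg
    have h2 := lf_count_le z (fun x => (x + 1) / 2) (g a) (2 * g a - 1) (2 * g a)
      (fun x hx => by omega)
    rw [e] at h2
    have := c1 (2 * g a - 1)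
    have := c1 (2 * g a)
    have := hl a ha
    have := hl b hb
    omega
  have dbl : Dbl (z.map fun x => (x + 1) / 2) := e ▸ hl.map inj
  refine ⟨inj, ?_, ?_⟩
  · intro x hx ho
    have h1 := dbl ((x + 1) / 2) (List.mem_map.mpr ⟨x, hx, rfl⟩)
    have h2 := lf_count_le z (fun x => (x + 1) / 2) ((x + 1) / 2) x (x + 1)
      (fun y hy => by omega)
    have := c1 x
    exact List.count_pos_iff.mp (by omega)
  · intro x hx ho
    have h1 := dbl ((x + 1) / 2) (List.mem_map.mpr ⟨x, hx, rfl⟩)
    have h2 := lf_count_le z (fun x => (x + 1) / 2) ((x + 1) / 2) x (x - 1)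
      (fun y hy => by omega)
    have := c1 x
    refine ⟨?_, List.count_pos_iff.mp (by omega)⟩
    by_contra h0
    have h3 := lf_count_le z (fun x => (x + 1) / 2) ((x + 1) / 2) x (z.sum + 1)
      (fun y hy => by omega)
    have h4 : z.count (z.sum + 1) = 0 := List.count_eq_zero.mpr fun hm => by
      have := List.le_sum_of_mem hm
      omega
    omega

theorem lf_range {z : List ℕ} {t₀ t₁ : ℕ} (hz : (t₀ :: t₁ :: z).Nodup) (h₀ : t₀ % 2 = 0)
    (h₁ : t₁ % 2 = 1) (b1 : ∀ x ∈ z, x % 2 = 1 → x + 1 ∈ z)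
    (b2 : ∀ x ∈ z, x % 2 = 0 → 1 ≤ x ∧ x - 1 ∈ z)
    (c1 : ∀ x ∈ t₀ :: t₁ :: z, x % 2 = 0 → x + 1 ∈ t₀ :: t₁ :: z)
    (c2 : ∀ x ∈ t₀ :: t₁ :: z, x % 2 = 1 → x - 1 ∈ t₀ :: t₁ :: z) :
    t₁ = t₀ + z.length + 1 ∧ z.Perm (List.range' (t₀ + 1) z.length) := by
  have lo : ∀ x, x ∈ t₀ :: t₁ :: z → t₀ ≤ x := by
    intro x
    induction x using Nat.strong_induction_on with
    | _ x ih =>
      intro hx
      rcases Nat.mod_two_eq_zero_or_one x with h | h
      · rcases List.mem_cons.mp hx with rfl | hx'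
        · exact le_rfl
        · rcases List.mem_cons.mp hx' with rfl | hx''
          · omega
          · obtain ⟨p1, p2⟩ := b2 x hx'' h
            have := ih (x - 1) (by omega) (by simp [p2])
            omega
      · have := ih (x - 1) (by omega) (c2 x hx h)
        omega
  have st : ∀ x, x ∈ t₀ :: t₁ :: z → x ≠ t₁ → x + 1 ∈ t₀ :: t₁ :: z := by
    intro x hx hne
    rcases Nat.mod_two_eq_zero_or_one x with h | h
    · exact c1 x hx h
    · rcases List.mem_cons.mp hx with rfl | hx'
      · omega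
      · rcases List.mem_cons.mp hx' with rfl | hx''
        · exact absurd rfl hne
        · simp [b1 x hx'' h]
  have hi : ∀ x, x ∈ t₀ :: t₁ :: z → x ≤ t₁ := by
    intro x hx
    by_contra hlt
    have : ∀ k, x + k ∈ t₀ :: t₁ :: z := by
      intro k
      induction k with
      | zero => exact hx
      | succ k ih => exact st (x + k) ih (by omega)
    have := List.le_sum_of_mem (this ((t₀ :: t₁ :: z).sum + 1))
    omega
  have mid : ∀ k, t₀ + k ≤ t₁ → t₀ + k ∈ t₀ :: t₁ :: z := by
    intro k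
    induction k with
    | zero => intro _; simp
    | succ k ih => intro hk; exact st (t₀ + k) (ih (by omega)) (by omega)
  have h01 := lo t₁ (by simp)
  simp only [List.nodup_cons, List.mem_cons, not_or] at hz
  have hp : z.Perm (List.range' (t₀ + 1) (t₁ - t₀ - 1)) := by
    rw [List.perm_ext_iff_of_nodup hz.2.2 (List.nodup_range' (step := 1))]
    intro x
    rw [List.mem_range'_1]
    constructor
    · intro hx
      have a1 := lo x (by simp [hx])
      have a2 := hi x (by simp [hx])
      have a3 : x ≠ t₀ := by rintro rfl; exact hz.1.2 hx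
      have a4 : x ≠ t₁ := by rintro rfl; exact hz.2.1 hx
      omega
    · intro hx
      have := mid (x - t₀) (by omega)
      rw [show t₀ + (x - t₀) = x by omega] at this
      simp only [List.mem_cons] at this
      rcases this with e | e | e
      · omega
      · omega
      · exact e
  have hl := hp.length_eq
  rw [List.length_range'] at hl
  rw [hl]
  exact ⟨by omega, hp⟩

theorem lf_core (hI : StmtInt) {l l' : List ℕ} (hl : Dbl l) (hl' : Dbl l') {a b : ℕ}
    (h : Arc false (bot l ++ ends a b ++ top l')) :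
    ∃ L, Lab L ∧ LD L = bot l ++ ends a b ++ top l' ∧ L.b.length = b ∧
      XL L = inter l + inter l' := by
  obtain ⟨_, _, C, h, hC⟩ := h
  obtain ⟨z', C₁, C₃, h1, h3, rfl⟩ := Num.append_iff.mp h
  have nz' : z'.Nodup := h1.nodup (by simpa using hC.of_append_left)
  obtain ⟨z, C₁, C₂, h1, h2, rfl⟩ := Num.append_iff.mp h1
  obtain ⟨A, R, x, y, C', rfl, ea, ⟨rfl, t₀, rfl, ht₀⟩, h4, _⟩ := Num.cons_iff.mp h2
  obtain ⟨l₁, D, x, y, C'', e1, eb, ⟨rfl, t₁, rfl, ht₁⟩, h5, _⟩ := Num.cons_iff.mp h4
  obtain ⟨rfl, _⟩ := Num.nil_iff.mp h5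
  rw [List.append_nil] at e1
  have : ∃ B, l₁ = A ++ [t₀] ++ B ∧ R = B ++ D := by
    rcases List.append_eq_append_iff.mp e1 with ⟨B, p1, p2⟩ | ⟨B, p1, p2⟩
    · exact ⟨B, p1, p2⟩
    · have := congrArg List.length p1
      simp only [List.length_append, List.length_cons, List.length_nil] at this
      have hB : B = [] := List.length_eq_zero_iff.mp (by omega)
      subst hB
      exact ⟨[], by simpa using p1.symm, by simpa using p2.symm⟩
  obtain ⟨B, rfl, rfl⟩ := this
  have eB : B.length = b := by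
    simp only [List.length_append, List.length_cons, List.length_nil] at eb
    omega
  have p₀ : t₀ % 2 = 0 := by
    rw [Nat.odd_iff] at ht₀
    simp at ht₀
    omega
  have p₁ : t₁ % 2 = 1 := by
    rw [Nat.odd_iff] at ht₁
    simpa using ht₁
  have ez : A ++ [] ++ (B ++ D) = A ++ B ++ D := by simp
  have ez' : A ++ [t₀] ++ B ++ [t₁] ++ D = A ++ t₀ :: B ++ t₁ :: D := by simp
  rw [ez] at h1
  rw [ez'] at h3 nz'
  have pp : (A ++ t₀ :: B ++ t₁ :: D).Perm (t₀ :: t₁ :: (A ++ B ++ D)) := by
    refine List.perm_middle.trans ?_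
    refine List.Perm.trans ?_ (List.Perm.swap _ _ _)
    exact List.Perm.cons _ (List.Perm.append_right _ List.perm_middle)
  have nz := pp.nodup_iff.mp nz'
  obtain ⟨g, hg⟩ := lf_bot _ l le_rfl hl h1
  obtain ⟨C₄, h6⟩ := lf_mir h3
  rw [top, mir_mir] at h6
  obtain ⟨g', hg'⟩ := lf_bot _ l' le_rfl hl' h6
  obtain ⟨i1, b1, b2⟩ := lf_inj nz.of_cons.of_cons hl hg
  obtain ⟨i2, c1, c2⟩ := lf_inj (nz'.map (add_left_injective 1)) hl' hg'
  obtain ⟨r1, r2⟩ := lf_range nz p₀ p₁ b1 b2
    (fun x hx he => by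
      have := c1 (x + 1) (List.mem_map.mpr ⟨x, pp.mem_iff.mpr hx, rfl⟩) (by omega)
      obtain ⟨y, hy, e⟩ := List.mem_map.mp this
      have : y = x + 1 := by omega
      exact pp.mem_iff.mp (this ▸ hy))
    (fun x hx he => by
      have := (c2 (x + 1) (List.mem_map.mpr ⟨x, pp.mem_iff.mpr hx, rfl⟩) (by omega)).2
      obtain ⟨y, hy, e⟩ := List.mem_map.mp this
      have : y = x - 1 := by omega
      exact pp.mem_iff.mp (this ▸ hy))
  have lo : ∀ x ∈ A ++ B ++ D, t₀ + 1 ≤ x := fun x hx =>
    (List.mem_range'_1.mp (r2.mem_iff.mp hx)).1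
  have lo' : ∀ x ∈ A ++ t₀ :: B ++ t₁ :: D, t₀ ≤ x := by
    intro x hx
    rcases List.mem_cons.mp (pp.mem_iff.mp hx) with rfl | hx
    · exact le_rfl
    · rcases List.mem_cons.mp hx with rfl | hx
      · omega
      · have := lo x hx; omega
  let L : Line := ⟨A.map (· - t₀), B.map (· - t₀), D.map (· - t₀)⟩
  have eall : L.all = (A ++ B ++ D).map (· - t₀) := by simp [L, Line.all]
  have em : L.m = (A ++ B ++ D).length := by rw [Line.m, eall, List.length_map]
  have e1 : botIds L = l.map fun a => g a - t₀ / 2 := by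
    have : l.map (fun a => g a - t₀ / 2) = (l.map g).map (· - t₀ / 2) := by simp
    rw [this, ← hg, botIds, eall, List.map_map, List.map_map]
    apply List.map_congr_left
    intro x hx
    have := lo x hx
    simp only [Function.comp]
    omega
  have e2 : topIds L = l'.map fun a => g' a - (t₀ / 2 + 1) := by
    have : l'.map (fun a => g' a - (t₀ / 2 + 1)) = (l'.map g').map (· - (t₀ / 2 + 1)) := by simp
    have e3 : L.a ++ 0 :: L.b ++ (L.m + 1) :: L.c = (A ++ t₀ :: B ++ t₁ :: D).map (· - t₀) := by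
      have : t₁ - t₀ = L.m + 1 := by omega
      simp only [List.map_append, List.map_cons, this, Nat.sub_self]
      rfl
    rw [this, ← hg', topIds, e3, List.map_map, List.map_map, List.map_map]
    apply List.map_congr_left
    intro x hx
    have := lo' x hx
    simp only [Function.comp]
    omega
  have j1 : ∀ a ∈ l, ∀ b ∈ l, g a - t₀ / 2 = g b - t₀ / 2 → a = b := by
    have : ∀ a ∈ l, t₀ / 2 ≤ g a := by
      intro a ha
      have : g a ∈ l.map g := List.mem_map.mpr ⟨a, ha, rfl⟩
      rw [← hg] at this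
      obtain ⟨x, hx, e⟩ := List.mem_map.mp this
      have := lo x hx
      omega
    intro a ha b hb e
    have := this a ha
    have := ‹∀ a ∈ l, t₀ / 2 ≤ g a› b hb
    exact i1 a ha b hb (by omega)
  have j2 : ∀ a ∈ l', ∀ b ∈ l', g' a - (t₀ / 2 + 1) = g' b - (t₀ / 2 + 1) → a = b := by
    have : ∀ a ∈ l', t₀ / 2 + 1 ≤ g' a := by
      intro a ha
      have : g' a ∈ l'.map g' := List.mem_map.mpr ⟨a, ha, rfl⟩
      rw [← hg', List.map_map] at this
      obtain ⟨x, hx, e⟩ := List.mem_map.mp this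
      have := lo' x hx
      simp only [Function.comp] at e
      omega
    intro a ha b hb e
    have := this a ha
    have := ‹∀ a ∈ l', t₀ / 2 + 1 ≤ g' a› b hb
    exact i2 a ha b hb (by omega)
  refine ⟨L, ⟨?_, ?_⟩, ?_, by simp [L, eB], ?_⟩
  · rw [em, Nat.even_iff]; omega
  · rw [eall, em]
    refine (r2.map _).trans (List.Perm.of_eq ?_)
    rw [List.range'_eq_map_range, List.range'_eq_map_range, List.map_map]
    apply List.map_congr_left
    intro x _
    simp only [Function.comp]
    omega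
  · rw [LD, e1, e2, bot_map j1, top_map j2]
    simp [L, ea, eB]
  · rw [XL, e1, e2, hI.2.2.2.2 l _ j1, hI.2.2.2.2 l' _ j2]

theorem lf_of : StmtNF → StmtInt → StmtT1 → StmtLF := by
  intro hN hI hT u v a b h
  have hok := h.ok
  have hc : cnt 0 (u ++ ends a b ++ v) = 0 := by
    obtain ⟨_, _, C, h3, _⟩ := h
    exact h3.ok.2
  have c0 := h.1
  have c1 := h.2.1
  simp only [List.countP_append] at c0 c1
  have d0 : (ends a b).countP (IsEnd false) = 1 := by simp [ends, IsEnd]
  have d1 : (ends a b).countP (IsEnd true) = 1 := by simp [ends, IsEnd]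
  have nu : NoEnd u := (noEnd_iff u).mpr ⟨by omega, by omega⟩
  have nv : NoEnd v := (noEnd_iff v).mpr ⟨by omega, by omega⟩
  rw [ok_append, ok_append] at hok
  rw [cnt_append] at hc
  obtain ⟨m1, m2⟩ := ok_mir hok.2
  rw [hc] at m1 m2
  have back : ∀ w, FE 0 (mir v) w → FE (cnt 0 (u ++ ends a b)) v (mir w) := by
    intro w hw
    have := hw.mir m1
    rwa [m2, mir_mir] at this
  rcases hN u nu hok.1.1 with ⟨l, hl, f1, x1⟩ | ⟨u', v', i, f1⟩
  · rcases hN (mir v) nv.mir m1 with ⟨l', hl', f2, x2⟩ | ⟨u', v', i, f2⟩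
    · have f : FE 0 (u ++ ends a b ++ v) (bot l ++ ends a b ++ top l') :=
        (FE.left _ (back _ f2)).trans (FE.right _ (FE.right _ f1))
      obtain ⟨L, hL, e, eb, ex⟩ := lf_core hI hl hl' (hT _ _ f h)
      refine ⟨L, hL, e ▸ f, eb, ?_⟩
      rw [cross_mir] at x2
      rw [ex, cross_append, cross_append]
      omega
    · have f := hT _ _ (FE.left _ (back _ f2)) h
      have e : u ++ ends a b ++ mir (u' ++ [(i, cup), (i, cap)] ++ v') =
          (u ++ ends a b ++ mir v') ++ [(i, cup), (i, cap)] ++ mir u' := by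
        rw [mir_append, mir_append]
        simp [mir, mirK]
      rw [e] at f
      exact absurd f (not_arc_loop _ _ _ _)
  · have f := hT _ _ (FE.right v (FE.right (ends a b) f1)) h
    rw [List.append_assoc _ (ends a b), List.append_assoc _ v'] at f
    exact absurd f (not_arc_loop _ _ _ _)

end Pool.Agent.MP_d5eec5_gt.H77
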