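import Pool.Agent.MP_d5eec5_gt.H77.KBasic

/-! A crossing on top of a normal tangle swaps two neighbouring labels. -/

set_option autoImplicit false

namespace Pool.Agent.MP_d5eec5_gt.H77

open Pool.Agent.MP_d5eec5_gt.H48 Kind

/-- A minimum at the left whose right strand moves `j` places to the right. -/
def n1CC (j : ℕ) : List Gen := (0, cup) :: chain j

theorem n1_cc_zero : n1CC 0 = [(0, cup)] := rfl

theorem n1_cc_succ (j : ℕ) : n1CC (j + 1) = n1CC j ++ [(j + 1, cr true)] := by
  simp [n1CC, chain, List.range_succ]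

theorem n1_cnt (n j : ℕ) (h : j ≤ n) : cnt n (n1CC j) = n + 2 := by
  induction j with
  | zero => simp [n1_cc_zero, win, wout]
  | succ j ih =>
    rw [n1_cc_succ, cnt_append, ih (by omega)]
    simp [win, wout]

theorem n1_bot_cons (a : ℕ) (l : List ℕ) :
    bot (a :: l) = bot (l.erase a) ++ n1CC (l.idxOf a) := by
  rw [bot]; rfl

theorem n1_XX {n p q : ℕ} (h : p + 2 ≤ q) (h' : q + 2 ≤ n) :
    FE n [(q, cr true), (p, cr true)] [(p, cr true), (q, cr true)] :=
  fe_far' (by simpa [win] using h) (by simpa [win] using h') (by simp [win, wout])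

/-- A crossing to the right of the travelling strand. -/
theorem n1_A (n j i : ℕ) (h : j ≤ i) (hi : i + 2 ≤ n) :
    FE n (n1CC j ++ [(i + 2, cr true)]) ((i, cr true) :: n1CC j) := by
  induction j with
  | zero =>
    exact (fe_far' (p := 0) (q := i) (q' := i + 2) (k := cup) (l := cr true)
      (by simp [win]) (by simpa [win] using hi) (by simp [win, wout])).symm
  | succ j ih =>
    have e : cnt n (n1CC j) = n + 2 := n1_cnt n j (by omega)
    calc FE n (n1CC (j + 1) ++ [(i + 2, cr true)])
          (n1CC j ++ [(j + 1, cr true), (i + 2, cr true)]) := FE.of_eq (by simp [n1_cc_succ])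
      FE n _ (n1CC j ++ [(i + 2, cr true), (j + 1, cr true)]) :=
          FE.left _ (by rw [e]; exact (n1_XX (by omega) (by omega)).symm)
      FE n _ ((n1CC j ++ [(i + 2, cr true)]) ++ [(j + 1, cr true)]) := FE.of_eq (by simp)
      FE n _ (((i, cr true) :: n1CC j) ++ [(j + 1, cr true)]) := FE.right _ (ih (by omega))
      FE n _ ((i, cr true) :: n1CC (j + 1)) := FE.of_eq (by simp [n1_cc_succ])

/-- A crossing that undoes the last step of the travelling strand. -/
theorem n1_C (n j : ℕ) (h : j + 1 ≤ n) : FE n (n1CC (j + 1) ++ [(j + 1, cr true)]) (n1CC j) := by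
  have e : cnt n (n1CC j) = n + 2 := n1_cnt n j (by omega)
  calc FE n (n1CC (j + 1) ++ [(j + 1, cr true)])
        (n1CC j ++ [(j + 1, cr true), (j + 1, cr true)]) := FE.of_eq (by simp [n1_cc_succ])
    FE n _ (n1CC j ++ []) := FE.left _ (by rw [e]; exact fe_r2 (by omega) _ _)
    FE n _ (n1CC j) := FE.of_eq (by simp)

/-- A crossing to the left of the travelling strand. -/
theorem n1_D (n i d : ℕ) (h : i + 2 + d ≤ n) :
    FE n (n1CC (i + 2 + d) ++ [(i + 1, cr true)]) ((i, cr true) :: n1CC (i + 2 + d)) := by
  induction d with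
  | zero =>
    have e : cnt n (n1CC i) = n + 2 := n1_cnt n i (by omega)
    calc FE n (n1CC (i + 2 + 0) ++ [(i + 1, cr true)])
          (n1CC i ++ [(i + 1, cr true), (i + 1 + 1, cr true), (i + 1, cr true)]) :=
          FE.of_eq (by simp [n1_cc_succ])
      FE n _ (n1CC i ++ [(i + 1 + 1, cr true), (i + 1, cr true), (i + 1 + 1, cr true)]) :=
          FE.left _ (by rw [e]; exact fe_r3 (by omega) _ _ _ _ _ _)
      FE n _ ((n1CC i ++ [(i + 2, cr true)]) ++ [(i + 1, cr true), (i + 1 + 1, cr true)]) :=
          FE.of_eq (by simp)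
      FE n _ (((i, cr true) :: n1CC i) ++ [(i + 1, cr true), (i + 1 + 1, cr true)]) :=
          FE.right _ (n1_A n i i le_rfl (by omega))
      FE n _ ((i, cr true) :: n1CC (i + 2 + 0)) := FE.of_eq (by simp [n1_cc_succ])
  | succ d ih =>
    have e : cnt n (n1CC (i + 2 + d)) = n + 2 := n1_cnt n _ (by omega)
    have e2 : n1CC (i + 2 + (d + 1)) = n1CC (i + 2 + d) ++ [(i + 2 + d + 1, cr true)] :=
      n1_cc_succ (i + 2 + d)
    calc FE n (n1CC (i + 2 + (d + 1)) ++ [(i + 1, cr true)])
          (n1CC (i + 2 + d) ++ [(i + 2 + d + 1, cr true), (i + 1, cr true)]) :=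
          FE.of_eq (by rw [e2]; simp)
      FE n _ (n1CC (i + 2 + d) ++ [(i + 1, cr true), (i + 2 + d + 1, cr true)]) :=
          FE.left _ (by rw [e]; exact n1_XX (by omega) (by omega))
      FE n _ ((n1CC (i + 2 + d) ++ [(i + 1, cr true)]) ++ [(i + 2 + d + 1, cr true)]) :=
          FE.of_eq (by simp)
      FE n _ (((i, cr true) :: n1CC (i + 2 + d)) ++ [(i + 2 + d + 1, cr true)]) :=
          FE.right _ (ih (by omega))
      FE n _ ((i, cr true) :: n1CC (i + 2 + (d + 1))) := FE.of_eq (by rw [e2]; simp)

theorem n1_D' (n i j : ℕ) (hj : i + 2 ≤ j) (h : j ≤ n) :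
    FE n (n1CC j ++ [(i + 1, cr true)]) ((i, cr true) :: n1CC j) := by
  obtain ⟨d, rfl⟩ := Nat.exists_eq_add_of_le hj
  exact n1_D n i d h

theorem n1_E0 (n c : ℕ) (h : c ≤ n) :
    FE n (n1CC c ++ n1CC 1 ++ [(0, cr true)]) (n1CC 0 ++ n1CC (c + 2)) := by
  induction c with
  | zero =>
    calc FE n (n1CC 0 ++ n1CC 1 ++ [(0, cr true)])
          ([(0, cup), (0, cup)] ++ [(1, cr true), (0, cr true)]) := FE.of_eq rfl
      FE n _ ([(0, cup), (2, cup)] ++ [(1, cr true), (0, cr true)]) :=
          FE.right _ (fe_far' (by simp [win]) (by simp [win]) (by simp [win, wout]))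
      FE n _ ([(0, cup)] ++ [(1 + 1, cup), (1, cr true)] ++ [(0, cr true)]) := FE.of_eq rfl
      FE n _ ([(0, cup)] ++ [(1, cup), (1 + 1, cr true)] ++ [(0, cr true)]) :=
          FE.ctx _ _ (fe_pcup (by simp [win, wout]) _ _)
      FE n _ ([(0, cup), (1, cup)] ++ [(2, cr true), (0, cr true)]) := FE.of_eq rfl
      FE n _ ([(0, cup), (1, cup)] ++ [(0, cr true), (2, cr true)]) :=
          FE.left _ (n1_XX (by omega) (by simp [win, wout]))
      FE n _ ([(0, cup)] ++ [(0 + 1, cup), (0, cr true)] ++ [(2, cr true)]) := FE.of_eq rfl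
      FE n _ ([(0, cup)] ++ [(0, cup), (0 + 1, cr true)] ++ [(2, cr true)]) :=
          FE.ctx _ _ (fe_pcup (by simp [win, wout]) _ _)
      FE n _ (n1CC 0 ++ n1CC (0 + 2)) := FE.of_eq rfl
  | succ c ih =>
    have e : cnt n (n1CC c) = n + 2 := n1_cnt n c (by omega)
    have e1 : cnt n (n1CC c ++ n1CC 1) = n + 2 + 2 := by
      rw [cnt_append, e, n1_cnt _ 1 (by omega)]
    calc FE n (n1CC (c + 1) ++ n1CC 1 ++ [(0, cr true)])
          (n1CC c ++ ((c + 1, cr true) :: n1CC 1) ++ [(0, cr true)]) :=
          FE.of_eq (by rw [n1_cc_succ c]; simp)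
      FE n _ (n1CC c ++ (n1CC 1 ++ [(c + 1 + 2, cr true)]) ++ [(0, cr true)]) :=
          FE.ctx _ _ (by rw [e]; exact (n1_A _ 1 (c + 1) (by omega) (by omega)).symm)
      FE n _ ((n1CC c ++ n1CC 1) ++ [(c + 1 + 2, cr true), (0, cr true)]) := FE.of_eq (by simp)
      FE n _ ((n1CC c ++ n1CC 1) ++ [(0, cr true), (c + 1 + 2, cr true)]) :=
          FE.left _ (by rw [e1]; exact n1_XX (by omega) (by omega))
      FE n _ ((n1CC c ++ n1CC 1 ++ [(0, cr true)]) ++ [(c + 1 + 2, cr true)]) :=
          FE.of_eq (by simp)
      FE n _ ((n1CC 0 ++ n1CC (c + 2)) ++ [(c + 1 + 2, cr true)]) := FE.right _ (ih (by omega))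
      FE n _ (n1CC 0 ++ n1CC (c + 1 + 2)) := FE.of_eq (by rw [n1_cc_succ (c + 2)]; simp)

/-- Two travelling strands pass each other. -/
theorem n1_E (n c a : ℕ) (h : c ≤ n) (ha : a ≤ c) :
    FE n (n1CC c ++ n1CC (a + 1) ++ [(0, cr true)]) (n1CC a ++ n1CC (c + 2)) := by
  induction a with
  | zero => exact n1_E0 n c h
  | succ a ih =>
    have e : cnt n (n1CC c) = n + 2 := n1_cnt n c (by omega)
    have e0 : cnt n (n1CC a) = n + 2 := n1_cnt n a (by omega)
    have e1 : cnt n (n1CC c ++ n1CC (a + 1)) = n + 2 + 2 := by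
      rw [cnt_append, e, n1_cnt _ (a + 1) (by omega)]
    calc FE n (n1CC c ++ n1CC (a + 1 + 1) ++ [(0, cr true)])
          ((n1CC c ++ n1CC (a + 1)) ++ [(a + 1 + 1, cr true), (0, cr true)]) :=
          FE.of_eq (by rw [n1_cc_succ (a + 1)]; simp)
      FE n _ ((n1CC c ++ n1CC (a + 1)) ++ [(0, cr true), (a + 1 + 1, cr true)]) :=
          FE.left _ (by rw [e1]; exact n1_XX (by omega) (by omega))
      FE n _ ((n1CC c ++ n1CC (a + 1) ++ [(0, cr true)]) ++ [(a + 1 + 1, cr true)]) :=
          FE.of_eq (by simp)
      FE n _ ((n1CC a ++ n1CC (c + 2)) ++ [(a + 1 + 1, cr true)]) := FE.right _ (ih (by omega))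
      FE n _ (n1CC a ++ (n1CC (c + 2) ++ [(a + 1 + 1, cr true)])) := FE.of_eq (by simp)
      FE n _ (n1CC a ++ ((a + 1, cr true) :: n1CC (c + 2))) :=
          FE.left _ (by rw [e0]; exact n1_D' _ (a + 1) (c + 2) (by omega) (by omega))
      FE n _ (n1CC (a + 1) ++ n1CC (c + 2)) := FE.of_eq (by rw [n1_cc_succ a]; simp)

theorem n1_E' (n c a : ℕ) (h : c ≤ n) (ha : a ≤ c) :
    FE n (n1CC a ++ n1CC (c + 2) ++ [(0, cr true)]) (n1CC c ++ n1CC (a + 1)) := by
  have e1 : cnt n (n1CC c ++ n1CC (a + 1)) = n + 2 + 2 := by
    rw [cnt_append, n1_cnt n c h, n1_cnt _ (a + 1) (by omega)]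
  calc FE n (n1CC a ++ n1CC (c + 2) ++ [(0, cr true)])
        ((n1CC c ++ n1CC (a + 1) ++ [(0, cr true)]) ++ [(0, cr true)]) :=
        FE.right _ (n1_E n c a h ha).symm
    FE n _ ((n1CC c ++ n1CC (a + 1)) ++ [(0, cr true), (0, cr true)]) := FE.of_eq (by simp)
    FE n _ ((n1CC c ++ n1CC (a + 1)) ++ []) :=
        FE.left _ (by rw [e1]; exact fe_r2 (by omega) _ _)
    FE n _ (n1CC c ++ n1CC (a + 1)) := FE.of_eq (by simp)

theorem n1_dbl_mem {a : ℕ} {l : List ℕ} (h : Dbl (a :: l)) : l.count a = 1 := by
  have := h a (by simp)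
  simpa using this

theorem n1_dbl_erase {a : ℕ} {l : List ℕ} (h : Dbl (a :: l)) : Dbl (l.erase a) := by
  intro b hb
  have h1 := n1_dbl_mem h
  by_cases hab : b = a
  · subst hab
    have : (l.erase b).count b = 0 := by rw [List.count_erase_self]; omega
    exact absurd hb (List.count_eq_zero.mp this)
  · have hb' : b ∈ l := List.mem_of_mem_erase hb
    have := h b (by simp [hb'])
    rw [List.count_cons_of_ne (Ne.symm hab)] at this
    rw [List.count_erase_of_ne hab, this]

theorem n1_dbl_perm {l l' : List ℕ} (h : Dbl l) (hp : l.Perm l') : Dbl l' := by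
  intro a ha
  rw [← hp.count_eq]
  exact h a (hp.mem_iff.mpr ha)

theorem n1_bot_cnt : ∀ (k : ℕ) (l : List ℕ), l.length ≤ k → Dbl l → cnt 0 (bot l) = l.length := by
  intro k
  induction k with
  | zero =>
    intro l hl _
    have : l = [] := List.length_eq_zero_iff.mp (by omega)
    subst this
    simp [bot]
  | succ k ih =>
    intro l hl h
    cases l with
    | nil => simp [bot]
    | cons a l =>
      have hm : a ∈ l := List.count_pos_iff.mp (by rw [n1_dbl_mem h]; omega)
      have e := List.length_erase_of_mem hm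
      have hi := List.idxOf_lt_length_of_mem hm
      simp only [List.length_cons] at hl
      rw [n1_bot_cons, cnt_append, ih _ (by omega) (n1_dbl_erase h), n1_cnt _ _ (by omega), e]
      simp only [List.length_cons]
      omega

theorem n1_idx_lt {x y : ℕ} (hxy : x ≠ y) : ∀ l : List ℕ, l.idxOf x < l.idxOf y →
    (l.erase x).idxOf y + 1 = l.idxOf y ∧ (l.erase y).idxOf x = l.idxOf x := by
  intro l
  induction l with
  | nil => simp
  | cons a l ih =>
    intro h
    by_cases hx : a = x
    · subst hx
      simp [hxy]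
    · by_cases hy : a = y
      · subst hy
        simp at h
      · rw [List.idxOf_cons_ne _ hx, List.idxOf_cons_ne _ hy] at h
        obtain ⟨h1, h2⟩ := ih (by omega)
        rw [List.erase_cons_tail (by simpa using hx), List.erase_cons_tail (by simpa using hy),
          List.idxOf_cons_ne _ hx, List.idxOf_cons_ne _ hy, List.idxOf_cons_ne _ hx,
          List.idxOf_cons_ne _ hy]
        omega

theorem n1_front (l : List ℕ) (x y : ℕ) (h : Dbl (x :: y :: l)) :
    FE 0 (bot (x :: y :: l) ++ [(0, cr true)]) (bot (y :: x :: l)) := by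
  by_cases hxy : x = y
  · subst hxy
    rw [n1_bot_cons]
    simp only [List.erase_cons_head, List.idxOf_cons_self, n1_cc_zero, List.append_assoc]
    exact FE.left _ (fe_r1cup (by omega) _)
  · have h' : Dbl (y :: x :: l) := n1_dbl_perm h (List.Perm.swap _ _ _)
    have hx : l.count x = 1 := by
      have := n1_dbl_mem h
      rwa [List.count_cons_of_ne (Ne.symm hxy)] at this
    have hy : l.count y = 1 := by
      have := n1_dbl_mem h'
      rwa [List.count_cons_of_ne hxy] at this
    have mx : x ∈ l := List.count_pos_iff.mp (by omega)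
    have my : y ∈ l := List.count_pos_iff.mp (by omega)
    have ex : (y :: l).erase x = y :: l.erase x :=
      List.erase_cons_tail (by simpa using Ne.symm hxy)
    have ey : (x :: l).erase y = x :: l.erase y := List.erase_cons_tail (by simpa using hxy)
    have d2 : Dbl ((l.erase x).erase y) := by
      have := n1_dbl_erase h
      rw [ex] at this
      exact n1_dbl_erase this
    have myx : y ∈ l.erase x := (List.mem_erase_of_ne (Ne.symm hxy)).mpr my
    have len : ((l.erase x).erase y).length + 2 = l.length := by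
      have a1 := List.length_erase_of_mem mx
      have a2 := List.length_erase_of_mem myx
      have a3 := List.length_pos_of_mem myx
      omega
    have ec := n1_bot_cnt _ _ le_rfl d2
    have ix := List.idxOf_lt_length_of_mem mx
    have iy := List.idxOf_lt_length_of_mem my
    rw [n1_bot_cons x, n1_bot_cons y, ex, ey, n1_bot_cons y, n1_bot_cons x,
      List.erase_comm y x, List.idxOf_cons_ne _ (Ne.symm hxy), List.idxOf_cons_ne _ hxy]
    simp only [List.append_assoc]
    apply FE.left
    rw [ec, ← List.append_assoc]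
    have hne : l.idxOf x ≠ l.idxOf y := fun e => hxy ((List.idxOf_inj mx).mp e)
    rcases lt_or_gt_of_ne hne with hlt | hlt
    · obtain ⟨h1, h2⟩ := n1_idx_lt hxy l hlt
      rw [h2, ← h1]
      exact n1_E _ _ _ (by omega) (by omega)
    · obtain ⟨h1, h2⟩ := n1_idx_lt (Ne.symm hxy) l hlt
      rw [h2, ← h1]
      exact n1_E' _ _ _ (by omega) (by omega)

theorem n1_aux : ∀ (k : ℕ) (l₁ l₂ : List ℕ) (x y : ℕ), l₁.length ≤ k →
    Dbl (l₁ ++ x :: y :: l₂) →
    FE 0 (bot (l₁ ++ x :: y :: l₂) ++ [(l₁.length, cr true)]) (bot (l₁ ++ y :: x :: l₂)) := by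
  intro k
  induction k with
  | zero =>
    intro l₁ l₂ x y hk h
    have : l₁ = [] := List.length_eq_zero_iff.mp (by omega)
    subst this
    exact n1_front l₂ x y h
  | succ k ih =>
    intro l₁ l₂ x y hk h
    cases l₁ with
    | nil => exact n1_front l₂ x y h
    | cons a l₁ =>
      simp only [List.length_cons] at hk
      simp only [List.cons_append] at h ⊢
      have hc := n1_dbl_mem h
      have hd := n1_dbl_erase h
      have ec := n1_bot_cnt _ _ le_rfl hd
      rw [n1_bot_cons, n1_bot_cons, List.length_cons]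
      by_cases h1 : a ∈ l₁
      · have len := List.length_erase_of_mem h1
        have hi := List.idxOf_lt_length_of_mem h1
        rw [List.erase_append_left _ h1] at hd ec
        rw [List.erase_append_left _ h1, List.erase_append_left _ h1,
          List.idxOf_append_of_mem h1, List.idxOf_append_of_mem h1]
        have e : l₁.length + 1 = (l₁.erase a).length + 2 := by omega
        simp only [List.length_append, List.length_cons] at ec
        rw [e, List.append_assoc]
        refine (FE.left _ (by rw [ec]; exact n1_A _ _ _ (by omega) (by omega))).trans ?_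
        have := FE.right (n1CC (l₁.idxOf a)) (ih _ l₂ x y (by omega) hd)
        simpa using this
      · rw [List.erase_append_right _ h1] at hd ec
        rw [List.erase_append_right _ h1, List.erase_append_right _ h1,
          List.idxOf_append_of_notMem h1, List.idxOf_append_of_notMem h1]
        rw [List.count_append, List.count_eq_zero.mpr h1] at hc
        by_cases hx : x = a
        · subst hx
          have hy : y ≠ x := by
            rintro rfl
            simp at hc
          rw [List.erase_cons_head, List.erase_cons_tail (by simpa using hy),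
            List.erase_cons_head, List.idxOf_cons_self, List.idxOf_cons_ne _ hy,
            List.idxOf_cons_self]
          exact FE.of_eq (by simp [n1_cc_succ])
        · by_cases hy : y = a
          · subst hy
            rw [List.erase_cons_tail (by simpa using hx), List.erase_cons_head] at ec
            rw [List.erase_cons_head, List.erase_cons_tail (by simpa using hx),
              List.erase_cons_head, List.idxOf_cons_self, List.idxOf_cons_ne _ hx,
              List.idxOf_cons_self, List.append_assoc]
            apply FE.left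
            rw [ec]
            simp only [List.length_append, List.length_cons]
            exact n1_C _ _ (by omega)
          · have m2 : a ∈ l₂ := by
              rw [List.count_cons_of_ne hx, List.count_cons_of_ne hy] at hc
              exact List.count_pos_iff.mp (by omega)
            have len := List.length_erase_of_mem m2
            have hi := List.idxOf_lt_length_of_mem m2
            rw [List.erase_cons_tail (by simpa using hx),
              List.erase_cons_tail (by simpa using hy)] at hd ec
            rw [List.erase_cons_tail (by simpa using hx), List.erase_cons_tail (by simpa using hy),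
              List.erase_cons_tail (by simpa using hy), List.erase_cons_tail (by simpa using hx),
              List.idxOf_cons_ne _ hx, List.idxOf_cons_ne _ hy, List.idxOf_cons_ne _ hy,
              List.idxOf_cons_ne _ hx, List.append_assoc]
            simp only [List.length_append, List.length_cons] at ec
            refine (FE.left _ (by rw [ec]; exact n1_D' _ _ _ (by omega) (by omega))).trans ?_
            have := FE.right (n1CC (l₁.length + (l₂.idxOf a).succ.succ))
              (ih l₁ (l₂.erase a) x y (by omega) hd)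
            simpa using this

theorem n1 : StmtN1 := fun l₁ l₂ x y h => n1_aux _ l₁ l₂ x y le_rfl h

end Pool.Agent.MP_d5eec5_gt.H77
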