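import Pool.Agent.MP_d5eec5_gt.H48.Word

/-! Combinatorics of runs in reduced words. -/

namespace Pool.Agent.MP_d5eec5_gt.H48

open Finset

theorem valid_iff (w : Wd) : Valid w ↔ w[0]? = some 2 ∧ w[w.length - 1]? = some 0 ∧
    ∀ i, i + 1 < w.length → w[i]? ≠ w[i + 1]? := by
  unfold Valid
  rw [List.head?_eq_getElem?, List.getLast?_eq_getElem?, List.isChain_iff_getElem]
  refine and_congr Iff.rfl (and_congr Iff.rfl (forall_congr' fun i => ?_))
  constructor
  · intro h hi
    rw [List.getElem?_eq_getElem (by omega), List.getElem?_eq_getElem hi]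
    exact fun e => h hi (Option.some.inj e)
  · intro h hi e
    apply h hi
    rw [List.getElem?_eq_getElem (by omega), List.getElem?_eq_getElem hi, e]

theorem Valid.ne {w : Wd} (h : Valid w) {i : ℕ} (hi : i + 1 < w.length) : w[i]? ≠ w[i + 1]? :=
  ((valid_iff w).1 h).2.2 i hi

theorem Valid.pos {w : Wd} (h : Valid w) : 0 < w.length := by
  have := ((valid_iff w).1 h).1
  by_contra hc
  rw [List.getElem?_eq_none (by omega)] at this
  exact absurd this (by simp)

theorem ex_some {w : Wd} {i : ℕ} (hi : i < w.length) : ∃ x, w[i]? = some x :=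
  ⟨w[i], List.getElem?_eq_getElem hi⟩

theorem third' {a b c : Option (Fin 3)} {d : Fin 3} (ha : a ≠ none) (hb : b ≠ none) (hc : c ≠ none)
    (h1 : a ≠ b) (h2 : a ≠ some d) (h3 : b ≠ some d) (h4 : c ≠ b) (h5 : c ≠ some d) : a = c := by
  revert a b c d; decide

theorem nn {w : Wd} {i : ℕ} (hi : i < w.length) : w[i]? ≠ none := by
  obtain ⟨x, hx⟩ := ex_some hi
  rw [hx]; simp

theorem St.mono {o : Fin 3} {w : Wd} {p l l' : ℕ} (h : St o w p l) (hl : l' ≤ l) : St o w p l' :=
  ⟨by have := h.1; omega, h.2.1, fun i hi => h.2.2 i (by omega)⟩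

theorem mem_runs {o : Fin 3} {w : Wd} {p l : ℕ} (hl : 1 ≤ l) : p ∈ runs o w l ↔ St o w p l := by
  simp only [runs, mem_filter, mem_range]
  exact ⟨fun h => h.2, fun h => ⟨by have := h.1; omega, h⟩⟩

theorem runs_mono (o : Fin 3) (w : Wd) {l l' : ℕ} (hl : l' ≤ l) : runs o w l ⊆ runs o w l' := by
  intro p hp
  simp only [runs, mem_filter] at hp ⊢
  exact ⟨hp.1, hp.2.mono hl⟩

theorem St.alt {o : Fin 3} {w : Wd} {p l : ℕ} (hw : Valid w) (h : St o w p l) {i : ℕ}
    (hi : i + 2 < l) : w[p + i]? = w[p + i + 2]? := by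
  have h1 := h.1
  refine third' (b := w[p + i + 1]?) (d := o) (nn (by omega)) (nn (by omega)) (nn (by omega))
    (hw.ne (by omega)) (h.2.2 i (by omega)) (h.2.2 (i + 1) (by omega))
    (hw.ne (i := p + i + 1) (by omega)).symm (h.2.2 (i + 2) (by omega))

theorem St.alt2 {o : Fin 3} {w : Wd} {p l : ℕ} (hw : Valid w) (h : St o w p l) (s : ℕ) {i : ℕ}
    (hi : i + 2 * s < l) : w[p + i + 2 * s]? = w[p + i]? := by
  induction s with
  | zero => rfl
  | succ s ih =>
    rw [← ih (by omega)]
    have := h.alt hw (i := i + 2 * s) (by omega)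
    rw [show p + i + 2 * (s + 1) = p + (i + 2 * s) + 2 by omega,
      show p + i + 2 * s = p + (i + 2 * s) by omega]
    exact this.symm

theorem del_len {s p : ℕ} {w : Wd} (h : p + (2 * s + 1) ≤ w.length) :
    (del s p w).length + 2 * s = w.length := by
  simp only [del, List.length_append, List.length_take, List.length_drop]
  omega

theorem del_le {s p : ℕ} {w : Wd} (h : p + (2 * s + 1) ≤ w.length) {i : ℕ} (hi : i ≤ p) :
    (del s p w)[i]? = w[i]? := by
  unfold del
  rw [List.getElem?_append_left (by simp only [List.length_take]; omega),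
    List.getElem?_take_of_lt (by omega)]

theorem del_gt {s p : ℕ} {w : Wd} (h : p + (2 * s + 1) ≤ w.length) {i : ℕ} (hi : p < i) :
    (del s p w)[i]? = w[i + 2 * s]? := by
  unfold del
  rw [List.getElem?_append_right (by simp only [List.length_take]; omega), List.getElem?_drop,
    List.length_take]
  congr 1
  omega

theorem del_ge {o : Fin 3} {s p : ℕ} {w : Wd} (hw : Valid w) (h : St o w p (2 * s + 1)) {i : ℕ}
    (hi : p ≤ i) : (del s p w)[i]? = w[i + 2 * s]? := by
  rcases hi.eq_or_lt with rfl | hi
  · rw [del_le h.1 le_rfl]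
    exact (h.alt2 hw s (i := 0) (by omega)).symm
  · exact del_gt h.1 hi

theorem valid_del {o : Fin 3} {s p : ℕ} {w : Wd} (hw : Valid w) (h : St o w p (2 * s + 1)) :
    Valid (del s p w) := by
  have hl := del_len h.1
  have h1 := h.1
  obtain ⟨a, b, c⟩ := (valid_iff w).1 hw
  refine (valid_iff _).2 ⟨by rw [del_le h.1 (Nat.zero_le _), a], ?_, fun i hi => ?_⟩
  · rw [del_ge hw h (by omega), ← b]
    congr 1
    omega
  · rcases lt_or_ge i p with hp | hp
    · rw [del_le h.1 hp.le, del_le h.1 hp]
      exact c i (by omega)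
    · rw [del_ge hw h hp, del_ge hw h (by omega), show i + 1 + 2 * s = i + 2 * s + 1 by omega]
      exact c _ (by omega)

theorem st_del {o : Fin 3} {s p l : ℕ} {w : Wd} (hw : Valid w) (h : St o w p (2 * s + l))
    (hl : 1 ≤ l) : St o (del s p w) p l := by
  have h' : St o w p (2 * s + 1) := h.mono (by omega)
  have hn := del_len h'.1
  have h1 := h.1
  refine ⟨by omega, ?_, fun i hi => ?_⟩
  · rw [del_le h'.1 (Nat.sub_le _ _)]
    exact h.2.1
  · rw [del_ge hw h' (by omega), show p + i + 2 * s = p + (i + 2 * s) by omega]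
    exact h.2.2 _ (by omega)

theorem del_del {s t p : ℕ} {w : Wd} (h : p + (2 * (s + t) + 1) ≤ w.length) :
    del s p (del t p w) = del (s + t) p w := by
  have h1 : p + (2 * t + 1) ≤ w.length := by omega
  have h2 := del_len h1
  have h3 : p + (2 * s + 1) ≤ (del t p w).length := by omega
  refine List.ext_getElem? fun i => ?_
  rcases le_or_gt i p with hi | hi
  · rw [del_le h3 hi, del_le h1 hi, del_le h hi]
  · rw [del_gt h3 hi, del_gt h1 (by omega), del_gt h hi]
    congr 1
    omega

theorem del_zero (p : ℕ) (w : Wd) : del 0 p w = w := by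
  simp [del]

theorem St.sep {o : Fin 3} {w : Wd} {p l p' l' : ℕ} (h : St o w p l) (h' : St o w p' l')
    (hp : p < p') : p + l < p' := by
  by_contra hc
  have h1 := h'.2.1.resolve_left (by omega)
  exact h.2.2 (p' - 1 - p) (by omega) (by rw [← h1]; congr 1; omega)

theorem del_inj {o : Fin 3} {s p : ℕ} {w w' : Wd} (hw : Valid w) (hw' : Valid w')
    (h : St o w p (2 * s + 1)) (h' : St o w' p (2 * s + 1)) (e : del s p w = del s p w') :
    w = w' := by
  have h1 := h.1
  have h1' := h'.1
  have key : ∀ i, i ≤ p + 2 * s → w[i]? = w'[i]? := by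
    intro i
    induction i with
    | zero => intro _; rw [← del_le h.1 (Nat.zero_le _), e, del_le h'.1 (Nat.zero_le _)]
    | succ i ih =>
      intro hi
      rcases le_or_gt (i + 1) p with hp | hp
      · rw [← del_le h.1 hp, e, del_le h'.1 hp]
      · have a1 := h.2.2 (i + 1 - p) (by omega)
        have a2 := h'.2.2 (i + 1 - p) (by omega)
        have a3 := h.2.2 (i - p) (by omega)
        rw [show p + (i + 1 - p) = i + 1 by omega] at a1 a2
        rw [show p + (i - p) = i by omega] at a3
        refine third' (b := w[i]?) (d := o) (nn (by omega)) (nn (by omega)) (nn (by omega))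
          (hw.ne (by omega)).symm a1 a3 ?_ a2
        rw [ih (by omega)]
        exact (hw'.ne (by omega)).symm
  refine List.ext_getElem? fun i => ?_
  rcases le_or_gt i (p + 2 * s) with hi | hi
  · exact key i hi
  · have a := del_gt h.1 (i := i - 2 * s) (by omega)
    have b := del_gt h'.1 (i := i - 2 * s) (by omega)
    rw [show i - 2 * s + 2 * s = i by omega] at a b
    rw [← a, ← b, e]

theorem runs_del {o : Fin 3} {s p l : ℕ} {w : Wd} (h : St o w p (2 * s + 1)) (hl : 1 ≤ l) :
    (runs o w l).card ≤ (runs o (del s p w) l).card + 1 := by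
  have hn := del_len h.1
  have : ((runs o w l).erase p).card ≤ (runs o (del s p w) l).card := by
    refine card_le_card_of_injOn (fun q => if q < p then q else q - 2 * s) (fun q hq => ?_)
      fun q hq q' hq' e => ?_
    · obtain ⟨hne, hq⟩ := mem_erase.1 (mem_coe.1 hq)
      rw [mem_runs hl] at hq
      refine mem_coe.2 ((mem_runs hl).2 ?_)
      have h1 := h.1
      have h2 := hq.1
      beta_reduce
      split_ifs with hlt
      · have := hq.sep h hlt
        refine ⟨by omega, ?_, fun i hi => ?_⟩
        · rw [del_le h.1 (by omega)]; exact hq.2.1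
        · rw [del_le h.1 (by omega)]; exact hq.2.2 i hi
      · have := h.sep hq (by omega)
        refine ⟨by omega, Or.inr ?_, fun i hi => ?_⟩
        · rw [del_gt h.1 (by omega), show q - 2 * s - 1 + 2 * s = q - 1 by omega]
          exact hq.2.1.resolve_left (by omega)
        · rw [del_gt h.1 (by omega), show q - 2 * s + i + 2 * s = q + i by omega]
          exact hq.2.2 i hi
    · obtain ⟨hne, hq⟩ := mem_erase.1 (mem_coe.1 hq)
      obtain ⟨hne', hq'⟩ := mem_erase.1 (mem_coe.1 hq')
      rw [mem_runs hl] at hq hq'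
      have a : p < q → p + (2 * s + 1) < q := h.sep hq
      have b : p < q' → p + (2 * s + 1) < q' := h.sep hq'
      simp only at e
      split_ifs at e <;> omega
  have := pred_card_le_card_erase (s := runs o w l) (a := p)
  omega

/-- every letter different from `o` lies in a run -/
theorem ex_start {o : Fin 3} {w : Wd} : ∀ i, i < w.length → w[i]? ≠ some o →
    ∃ p ≤ i, St o w p (i - p + 1) := by
  intro i
  induction i with
  | zero =>
    intro hi h
    exact ⟨0, le_rfl, by omega, Or.inl rfl, fun j hj => by rwa [show 0 + j = 0 by omega]⟩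
  | succ i ih =>
    intro hi h
    by_cases hc : w[i]? = some o
    · exact ⟨i + 1, le_rfl, by omega, Or.inr hc, fun j hj => by
        rwa [show i + 1 + j = i + 1 by omega]⟩
    · obtain ⟨p, hp, hs⟩ := ih (by omega) hc
      refine ⟨p, by omega, by omega, hs.2.1, fun j hj => ?_⟩
      rcases lt_or_ge j (i - p + 1) with h1 | h1
      · exact hs.2.2 j h1
      · rwa [show p + j = i + 1 by omega]

theorem count_eq (w : Wd) (x : Fin 3) :
    w.count x = ((range w.length).filter fun i => w[i]? = some x).card := by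
  induction w using List.reverseRecOn with
  | nil => simp
  | append_singleton w y ih =>
    rw [List.count_append, ih, List.length_append, List.length_singleton, range_add_one,
      filter_insert]
    have e : ((range w.length).filter fun i => (w ++ [y])[i]? = some x) =
        (range w.length).filter fun i => w[i]? = some x :=
      filter_congr fun i hi => by rw [List.getElem?_append_left (mem_range.1 hi)]
    rw [e]
    by_cases hy : y = x
    · rw [if_pos (by simp [hy]), card_insert_of_notMem (by simp)]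
      simp [hy]
    · rw [if_neg (by simp [hy])]
      simp [hy]

theorem count_del {s p : ℕ} {w : Wd} {o : Fin 3} (h : St o w p (2 * s + 1)) :
    (del s p w).count o = w.count o := by
  have e : w = w.take (p + 1) ++ (((w.drop (p + 1)).take (2 * s)) ++ w.drop (p + 1 + 2 * s)) := by
    rw [← List.drop_drop (j := p + 1), List.take_append_drop, List.take_append_drop]
  have z : ((w.drop (p + 1)).take (2 * s)).count o = 0 := by
    rw [List.count_eq_zero]
    intro hm
    obtain ⟨i, hi⟩ := List.mem_iff_getElem?.1 hm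
    rcases lt_or_ge i (2 * s) with h1 | h1
    · rw [List.getElem?_take_of_lt h1, List.getElem?_drop] at hi
      exact h.2.2 (i + 1) (by omega) (by rw [← hi]; congr 1; omega)
    · rw [List.getElem?_eq_none (by simp only [List.length_take]; omega)] at hi
      exact absurd hi (by simp)
  conv_rhs => rw [e]
  simp only [del, List.count_append, z, zero_add]

theorem count_le_runs {w : Wd} (hw : Valid w) (o : Fin 3) : w.count o ≤ (runs o w 1).card + 1 := by
  rw [count_eq]
  have : (((range w.length).filter fun i => w[i]? = some o).erase (w.length - 1)).card ≤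
      (runs o w 1).card := by
    refine card_le_card_of_injOn (fun i => i + 1) (fun i hi => ?_) fun i _ j _ e => by simpa using e
    obtain ⟨hne, hi⟩ := mem_erase.1 (mem_coe.1 hi)
    obtain ⟨h1, h2⟩ := mem_filter.1 hi
    rw [mem_range] at h1
    beta_reduce
    refine mem_coe.2 ((mem_runs le_rfl).2 ⟨by omega, Or.inr h2, fun j hj => ?_⟩)
    rw [show i + 1 + j = i + 1 by omega, ← h2]
    exact (hw.ne (by omega)).symm
  have := pred_card_le_card_erase (s := (range w.length).filter fun i => w[i]? = some o)
    (a := w.length - 1)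
  omega

theorem count_sum (w : Wd) : w.count 0 + w.count 1 + w.count 2 = w.length := by
  induction w with
  | nil => rfl
  | cons x w ih =>
    simp only [List.count_cons, List.length_cons]
    fin_cases x <;> simp <;> omega

theorem count_one_le {w : Wd} (hw : Valid w) : w.count 1 ≤ w.count 0 + w.count 2 := by
  rw [count_eq, count_eq, count_eq, ← card_union_of_disjoint (by
    rw [disjoint_filter]; intro i _ h h'; rw [h] at h'; exact absurd h' (by decide))]
  obtain ⟨a, -, c⟩ := (valid_iff w).1 hw
  refine card_le_card_of_injOn (fun i => i - 1) (fun i hi => ?_) fun i hi j hj e => ?_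
  · obtain ⟨h1, h2⟩ := mem_filter.1 (mem_coe.1 hi)
    rw [mem_range] at h1
    have h0 : i ≠ 0 := by rintro rfl; rw [a] at h2; exact absurd h2 (by decide)
    have h3 := c (i - 1) (by omega)
    rw [show i - 1 + 1 = i by omega, h2] at h3
    obtain ⟨x, hx⟩ := ex_some (w := w) (i := i - 1) (by omega)
    simp only [coe_union, coe_filter, mem_range, Set.mem_union, Set.mem_ofPred_eq, hx] at h3 ⊢
    have : x = 0 ∨ x = 2 := by clear hx; revert x; decide
    rcases this with rfl | rfl
    · exact Or.inl ⟨by omega, rfl⟩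
    · exact Or.inr ⟨by omega, rfl⟩
  · have h2 := (mem_filter.1 (mem_coe.1 hi)).2
    have h3 := (mem_filter.1 (mem_coe.1 hj)).2
    have h0 : i ≠ 0 := by rintro rfl; rw [a] at h2; exact absurd h2 (by decide)
    have h1 : j ≠ 0 := by rintro rfl; rw [a] at h3; exact absurd h3 (by decide)
    simp only at e
    omega

/-- long runs at the tail or at the head cross the middle segment -/
theorem sum_runs_le {w : Wd} (hw : Valid w) {o : Fin 3} (ho : o ≠ 1) (T : Finset ℕ)
    (hT : ∀ s ∈ T, 1 ≤ s) : ∑ s ∈ T, (runs o w (2 * s + 1)).card ≤ w.count 1 := by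
  rw [count_eq, ← card_sigma]
  refine card_le_card_of_injOn
    (fun x => if w[x.2 + 2 * x.1]? = some 1 then x.2 + 2 * x.1 else x.2 + 2 * x.1 - 1)
    (fun x hx => ?_) fun x hx y hy e => ?_
  · obtain ⟨h1, h2⟩ := mem_sigma.1 (mem_coe.1 hx)
    rw [mem_runs (by omega)] at h2
    have h3 := h2.1
    have h4 := hT _ h1
    refine mem_coe.2 (mem_filter.2 ?_)
    simp only
    split_ifs with hc
    · exact ⟨mem_range.2 (by omega), hc⟩
    · refine ⟨mem_range.2 (by omega), ?_⟩
      have a1 := h2.2.2 (2 * x.1) (by omega)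
      have a2 := h2.2.2 (2 * x.1 - 1) (by omega)
      have a3 := hw.ne (i := x.2 + 2 * x.1 - 1) (by omega)
      rw [show x.2 + 2 * x.1 - 1 + 1 = x.2 + 2 * x.1 by omega] at a3
      rw [show x.2 + (2 * x.1 - 1) = x.2 + 2 * x.1 - 1 by omega] at a2
      exact third' (b := w[x.2 + 2 * x.1]?) (d := o) (nn (by omega)) (nn (by omega)) (by simp)
        a3 a2 a1 (Ne.symm hc) (by simpa using ho.symm)
  · obtain ⟨h1, h2⟩ := mem_sigma.1 (mem_coe.1 hx)
    obtain ⟨h1', h2'⟩ := mem_sigma.1 (mem_coe.1 hy)
    rw [mem_runs (by omega)] at h2 h2'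
    have a : x.2 < y.2 → _ := h2.sep h2'
    have b : y.2 < x.2 → _ := h2'.sep h2
    have h4 := hT _ h1
    have h4' := hT _ h1'
    simp only at e
    have : x.1 = y.1 ∧ x.2 = y.2 := by split_ifs at e <;> omega
    exact Sigma.ext this.1 (heq_of_eq this.2)

/-- the turning points -/
def chg (w : Wd) : Finset ℕ := (range (w.length - 2)).filter fun i => w[i]? ≠ w[i + 2]?

theorem ex_third (a b : Option (Fin 3)) : ∃ o : Fin 3, a ≠ some o ∧ b ≠ some o := by
  revert a b; decide

theorem len_le {w : Wd} (L : ℕ) (hL : ∀ o p l, St o w p l → l ≤ L) :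
    w.length ≤ 2 + (chg w).card + ∑ o : Fin 3, ∑ l ∈ Icc 3 L, (runs o w l).card := by
  have h1 : ((range (w.length - 2)).filter fun i => ¬ w[i]? ≠ w[i + 2]?).card ≤
      ∑ o : Fin 3, ∑ l ∈ Icc 3 L, (runs o w l).card := by
    simp only [← card_sigma]
    refine card_le_card_of_surjOn (fun x => x.2.2 + x.2.1 - 3) fun i hi => ?_
    obtain ⟨h1, h2⟩ := mem_filter.1 (mem_coe.1 hi)
    rw [mem_range] at h1
    rw [not_not] at h2
    obtain ⟨o, ho1, ho2⟩ := ex_third w[i]? w[i + 1]?
    obtain ⟨p, hp, hs⟩ := ex_start (o := o) (w := w) i (by omega) ho1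
    have hs' : St o w p (i - p + 3) := by
      refine ⟨by omega, hs.2.1, fun j hj => ?_⟩
      rcases lt_or_ge j (i - p + 1) with h | h
      · exact hs.2.2 j h
      · rcases h.eq_or_lt with h | h
        · rwa [show p + j = i + 1 by omega]
        · rwa [show p + j = i + 2 by omega, ← h2]
    refine ⟨⟨o, i - p + 3, p⟩, mem_coe.2 (mem_sigma.2 ⟨mem_univ _, mem_sigma.2
      ⟨mem_Icc.2 ⟨by simp, hL _ _ _ hs'⟩, (mem_runs (by simp)).2 hs'⟩⟩), ?_⟩
    simp only
    omega
  have h2 := card_filter_add_card_filter_not (s := range (w.length - 2))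
    (fun i => w[i]? ≠ w[i + 2]?)
  rw [card_range] at h2
  unfold chg
  omega

end Pool.Agent.MP_d5eec5_gt.H48
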