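import Pool.Agent.MP_d5eec5_gt.H48.Cum

/-! The cumulative count grows by a bounded factor on the scale of the square root. -/

namespace Pool.Agent.MP_d5eec5_gt.H48

open Finset

noncomputable section

open Classical in
/-- run starts that follow a long run -/
def Bad (o : Fin 3) (w : Wd) (a : ℕ) : Finset ℕ := (runs o w 3).filter fun p =>
  a ≤ p ∧ ∀ t, p ≤ t + a → t + 2 ≤ p → w[t]? = w[t + 2]?

theorem bad_le {o : Fin 3} {w : Wd} (hw : Valid w) {a : ℕ} (ha : 1 ≤ a) :
    (Bad o w a).card ≤ ∑ y : Fin 3, (runs y w (a + 1)).card := by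
  have : ∀ p ∈ Bad o w a, ∃ (y : Fin 3) (p₀ : ℕ), w[p + 1]? = some y ∧ p₀ + a ≤ p ∧
      St y w p₀ (p - p₀ + 1) := by
    intro p hp
    simp only [Bad, mem_filter] at hp
    obtain ⟨h1, h2, h3⟩ := hp
    rw [mem_runs (by omega)] at h1
    have h4 := h1.1
    obtain ⟨y, hy⟩ := ex_some (w := w) (i := p + 1) (by omega)
    have key : ∀ j, j < a → w[p - j]? ≠ some y ∧ w[p - (j + 1)]? ≠ some y := by
      intro j
      induction j with
      | zero =>
        intro _
        refine ⟨hy ▸ hw.ne (by omega), ?_⟩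
        rw [zero_add, h1.2.1.resolve_left (by omega), ← hy]
        exact (h1.2.2 1 (by omega)).symm
      | succ j ih =>
        intro hj
        refine ⟨(ih (by omega)).2, ?_⟩
        rw [h3 _ (by omega) (by omega), show p - (j + 1 + 1) + 2 = p - j by omega]
        exact (ih (by omega)).1
    obtain ⟨p₀, hp₀, hs⟩ := ex_start (o := y) (w := w) p (by omega) (key 0 ha).1
    refine ⟨y, p₀, hy, ?_, hs⟩
    by_contra hc
    have := (key (p - p₀) (by omega)).2
    rw [show p - (p - p₀ + 1) = p₀ - 1 by omega] at this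
    exact this (hs.2.1.resolve_left (by omega))
  choose! y p₀ h1 h2 h3 using this
  rw [← card_sigma]
  refine card_le_card_of_injOn (fun p => ⟨y p, p₀ p⟩) (fun p hp => ?_) fun p hp p' hp' e => ?_
  · exact mem_coe.2 (mem_sigma.2 ⟨mem_univ _, (mem_runs (by omega)).2 ((h3 p hp).mono (by
      have := h2 p hp; omega))⟩)
  · obtain ⟨e1, e2⟩ := Sigma.mk.inj e
    have e2 := eq_of_heq e2
    have a1 := h2 p hp
    have a2 := h2 p' hp'
    rcases lt_trichotomy p p' with hl | hl | hl
    · exact absurd (by rw [← e1, ← h1 p hp]; congr 1; omega)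
        ((h3 p' hp').2.2 (p + 1 - p₀ p') (by omega))
    · exact hl
    · exact absurd (by rw [e1, ← h1 p' hp']; congr 1; omega)
        ((h3 p hp).2.2 (p' + 1 - p₀ p) (by omega))

/-- the positions close to a turning point -/
def sites (u : Wd) (a : ℕ) : Finset ℕ := range a ∪ (chg u).biUnion fun t => Ioc t (t + a)

theorem sites_le (u : Wd) (a : ℕ) : (sites u a).card ≤ a + (chg u).card * a := by
  refine (card_union_le _ _).trans ?_
  rw [card_range]
  exact Nat.add_le_add_left (card_biUnion_le_card_mul _ _ _ fun t _ => by simp) _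

theorem mem_sites {o : Fin 3} {w : Wd} {a p : ℕ} (hp : p ∈ runs o w 3) (hb : p ∉ Bad o w a) :
    p ∈ sites (del 1 p w) a := by
  simp only [Bad, mem_filter, hp, true_and, not_and, not_forall] at hb
  rw [mem_runs (by omega)] at hp
  have h1 : p + (2 * 1 + 1) ≤ w.length := hp.1
  have h2 := del_len h1
  rcases lt_or_ge p a with hl | hl
  · exact mem_union_left _ (mem_range.2 hl)
  · obtain ⟨t, a1, a2, a3⟩ := hb hl
    refine mem_union_right _ (mem_biUnion.2 ⟨t, mem_filter.2 ⟨mem_range.2 (by omega), ?_⟩,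
      mem_Ioc.2 ⟨by omega, a1⟩⟩)
    rwa [del_le h1 (by omega), del_le h1 a2]

variable {I : Wd → ℕ}

theorem Geo.up0 (h : Geo I) : ∃ e B q₀ : ℕ, 1 ≤ e ∧ ∀ n j, q₀ ≤ qq n → e * j ≤ qq n →
    (Cum I (n + j)).card ≤ B * (Cum I n).card := by
  obtain ⟨e, q₀, he, hat⟩ := h.atyp
  refine ⟨8 * e, 1 + 18 * e * (40 * (2 * (90 * e) ^ 2)), q₀ + 90 * e + 20, by omega,
    fun n j hq hj => ?_⟩
  have hn := lt_qq n
  set q := qq n with hqd
  set t := 90 * e with ht
  set a := 2 * t ^ 2 with ha
  have hjq : j ≤ q := by nlinarith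
  have hI : ∀ w ∈ Cum I (n + j), Valid w ∧ I w ≤ (2 * q) ^ 2 := fun w hw =>
    ⟨(h.mem.1 hw).1, (h.mem.1 hw).2.trans (by nlinarith)⟩
  have c0 := card_filter_add_card_filter_not (s := Cum I (n + j)) (fun w => e * MM w ≤ 2 * q)
  have c1 : ((Cum I (n + j)).filter fun w => e * MM w ≤ 2 * q).card ≤ (Cum I n).card := by
    have a1 := hat (2 * q) (by omega) ((Cum I (n + j)).filter fun w => e * MM w ≤ 2 * q)
      fun w hw => ⟨(hI w (mem_filter.1 hw).1).1, (hI w (mem_filter.1 hw).1).2, (mem_filter.1 hw).2⟩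
    have a2 := h.low (m := (q - 4) / 3) (n := n) (sq_le_of_lt_qq (by omega))
    have a3 : Real.exp (((2 * q : ℕ) : ℝ) / 20) ≤ 2 ^ ((q - 4) / 3) := by
      rw [← Real.exp_log (show (0 : ℝ) < 2 ^ ((q - 4) / 3) by positivity), Real.log_pow,
        Real.exp_le_exp]
      have b1 : (q : ℝ) ≤ 3 * ((q - 4) / 3 : ℕ) + 6 := by exact_mod_cast (by omega)
      have b2 : (20 : ℝ) ≤ q := by exact_mod_cast (by omega)
      have b3 := Real.log_two_gt_d9
      push_cast
      nlinarith
    have a4 : ((2 : ℝ) ^ ((q - 4) / 3)) ≤ (Cum I n).card := by exact_mod_cast a2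
    exact_mod_cast a1.trans (a3.trans a4)
  set Ty := (Cum I (n + j)).filter fun w => ¬ e * MM w ≤ 2 * q with hTy
  have : ∀ w ∈ Ty, ∃ (o : Fin 3) (G : Finset ℕ), q ≤ 6 * e * G.card ∧ ∀ p ∈ G, St o w p 3 ∧
      del 1 p w ∈ Cum I n ∧ p ∈ sites (del 1 p w) a := by
    intro w hw
    obtain ⟨w1, w2⟩ := mem_filter.1 hw
    obtain ⟨v, hv⟩ := hI w w1
    obtain ⟨o, ho⟩ : ∃ o, 2 * q < 3 * (e * (runs o w 3).card) := by
      by_contra hc
      push Not at hc
      have := hc 0
      have := hc 1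
      have := hc 2
      rw [MM, Fin.sum_univ_three, mul_add, mul_add] at w2
      omega
    set N := (runs o w 3).card with hN
    have g1 := h.half (o := o) (s := 1) (runs o w 3) v le_rfl fun p hp => (mem_runs (by omega)).1 hp
    set G := (runs o w 3).filter fun p => 5 * I (del 1 p w) + 1 * N ≤ 5 * I w with hG
    have g2 : (Bad o w a).card * t ≤ 3 * (2 * (2 * q) + t) := by
      refine (Nat.mul_le_mul_right t (bad_le v (by have : 1 ≤ t ^ 2 := Nat.one_le_pow _ _ (by omega)
                                                   omega))).trans ?_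
      rw [Fin.sum_univ_three, add_mul, add_mul]
      have b0 := h.nle (o := 0) (t := t) (by omega) v hv
      have b1 := h.nle (o := 1) (t := t) (by omega) v hv
      have b2 := h.nle (o := 2) (t := t) (by omega) v hv
      rw [← ha] at b0 b1 b2
      omega
    have g3 : 4 * (Bad o w a).card ≤ N := by
      refine Nat.le_of_mul_le_mul_right (c := t) ?_ (by omega)
      have : N * t = 30 * (3 * (e * N)) := by rw [ht]; ring
      rw [mul_assoc]
      omega
    have g4 := le_card_sdiff (Bad o w a) G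
    refine ⟨o, G \ Bad o w a, ?_, fun p hp => ?_⟩
    · have : N ≤ 4 * (G \ Bad o w a).card := by omega
      have := Nat.mul_le_mul_left e this
      nlinarith
    · obtain ⟨p1, p2⟩ := mem_sdiff.1 hp
      obtain ⟨p3, p4⟩ := mem_filter.1 p1
      have p5 : St o w p (2 * 1 + 1) := (mem_runs (by omega)).1 p3
      refine ⟨p5, h.mem.2 ⟨valid_del v p5, ?_⟩, mem_sites p3 p2⟩
      have b1 : 5 * j ≤ N := by
        refine Nat.le_of_mul_le_mul_left (c := 3 * e) ?_ (by omega)
        nlinarith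
      have := (h.mem.1 w1).2
      omega
  choose! o G g1 g2 using this
  have c2 : (Ty.sigma G).card ≤ ((Cum I n).sigma fun u => (univ : Finset (Fin 3)) ×ˢ sites u a).card := by
    refine card_le_card_of_injOn (fun x => ⟨del 1 x.2 x.1, o x.1, x.2⟩) (fun x hx => ?_)
      fun x hx y hy e => ?_
    · obtain ⟨x1, x2⟩ := mem_sigma.1 (mem_coe.1 hx)
      obtain ⟨-, b, c⟩ := g2 _ x1 _ x2
      exact mem_coe.2 (mem_sigma.2 ⟨b, mem_product.2 ⟨mem_univ _, c⟩⟩)
    · obtain ⟨x1, x2⟩ := mem_sigma.1 (mem_coe.1 hx)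
      obtain ⟨y1, y2⟩ := mem_sigma.1 (mem_coe.1 hy)
      obtain ⟨e1, e2⟩ := Sigma.mk.inj e
      obtain ⟨e3, e4⟩ := Prod.mk.inj (eq_of_heq e2)
      have s1 := (g2 _ x1 _ x2).1
      have s2 := (g2 _ y1 _ y2).1
      rw [← e3, ← e4] at s2
      rw [← e4] at e1
      exact Sigma.ext (del_inj (s := 1) (hI _ (mem_filter.1 x1).1).1 (hI _ (mem_filter.1 y1).1).1
        s1 s2 e1) (heq_of_eq e4)
  rw [card_sigma, card_sigma] at c2
  have c3 : ∑ u ∈ Cum I n, ((univ : Finset (Fin 3)) ×ˢ sites u a).card ≤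
      ∑ u ∈ Cum I n, 3 * (40 * a * q) := by
    refine sum_le_sum fun u hu => ?_
    rw [card_product, card_univ, Fintype.card_fin]
    refine Nat.mul_le_mul_left _ ((sites_le u a).trans ?_)
    have b := h.chg_le' (q := q) (h.mem.1 hu).1 ((h.mem.1 hu).2.trans hn.le) (by omega)
    have := Nat.mul_le_mul_right a b
    have := Nat.mul_le_mul_left a (show 1 ≤ q by omega)
    nlinarith
  have c4 : ∑ w ∈ Ty, q ≤ ∑ w ∈ Ty, 6 * e * (G w).card := sum_le_sum g1
  rw [← mul_sum] at c4
  simp only [sum_const, smul_eq_mul] at c3 c4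
  have c5 : Ty.card ≤ 18 * e * (40 * a) * (Cum I n).card := by
    refine Nat.le_of_mul_le_mul_right (c := q) ?_ (by omega)
    have := Nat.mul_le_mul_left (6 * e) (c2.trans c3)
    nlinarith
  rw [add_mul, one_mul]
  omega

theorem Geo.upa (h : Geo I) (a : ℕ) : ∃ B q₀ : ℕ, 1 ≤ B ∧ ∀ n m, q₀ ≤ qq n → m ≤ n + a * qq n →
    (Cum I m).card ≤ B * (Cum I n).card := by
  obtain ⟨e, B, q₀, he, hB⟩ := h.up0
  refine ⟨(B + 1) ^ (2 * e * a), q₀ + e, Nat.one_le_pow _ _ (by omega), fun n m hq hm => ?_⟩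
  set j := qq n / e with hj
  have j1 : e * j ≤ qq n := Nat.mul_div_le _ _
  have j2 : qq n ≤ 2 * e * j := by
    have a1 : qq n < e * (j + 1) := Nat.lt_mul_div_succ _ (by omega)
    have a2 : 1 ≤ j := (Nat.one_le_div_iff (by omega)).2 (by omega)
    nlinarith
  have key : ∀ i, (Cum I (n + i * j)).card ≤ (B + 1) ^ i * (Cum I n).card := by
    intro i
    induction i with
    | zero => simp
    | succ i ih =>
      have m1 := qq_mono (Nat.le_add_right n (i * j))
      have b := hB (n + i * j) j (by omega) (by omega)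
      rw [add_mul, one_mul, ← add_assoc, pow_succ]
      refine b.trans ?_
      have := Nat.mul_le_mul (Nat.le_succ B) ih
      nlinarith
  refine (h.cum_mono ?_).trans (key _)
  have := Nat.mul_le_mul_left a j2
  nlinarith

theorem Geo.an_le (h : Geo I) : ∃ K : ℕ, 1 ≤ K ∧ ∀ (o : Fin 3) (s : ℕ), 1 ≤ s → ∀ n,
    s * ∑ w ∈ Cum I n, (runs o w (2 * s + 1)).card ≤ K * qq n * (Cum I n).card := by
  obtain ⟨A, hA, hd⟩ := h.down
  refine ⟨120 * A, by omega, fun o s => ?_⟩
  induction s using Nat.strong_induction_on with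
  | _ s ih =>
  intro hs n
  have hn := lt_qq n
  have hq := qq_pos n
  set q := qq n with hqd
  rcases hs.eq_or_lt with rfl | hs
  · have : ∑ w ∈ Cum I n, (runs o w (2 * 1 + 1)).card ≤ ∑ w ∈ Cum I n, 120 * A * q :=
      sum_le_sum fun w hw => (h.n3 (q := q) (h.mem.1 hw).1 ((h.mem.1 hw).2.trans hn.le)).trans
        (by nlinarith)
    rw [sum_const, smul_eq_mul] at this
    rw [one_mul, mul_comm _ (Cum I n).card]
    exact this
  set s' := s / 2 with hs'
  set M := 60 * A * q / s with hM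
  have M1 : s * M ≤ 60 * A * q := Nat.mul_div_le _ _
  have M2 : 60 * A * q < s * (M + 1) := Nat.lt_mul_div_succ _ (by omega)
  rw [← sum_filter_add_sum_filter_not (Cum I n) (fun w => (runs o w (2 * s + 1)).card ≤ M), mul_add]
  have p1 : s * ∑ w ∈ (Cum I n).filter (fun w => (runs o w (2 * s + 1)).card ≤ M),
      (runs o w (2 * s + 1)).card ≤ 60 * A * q * (Cum I n).card := by
    have a := sum_le_card_nsmul ((Cum I n).filter fun w => (runs o w (2 * s + 1)).card ≤ M)
      (fun w => (runs o w (2 * s + 1)).card) M fun w hw => (mem_filter.1 hw).2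
    have b := card_filter_le (Cum I n) fun w => (runs o w (2 * s + 1)).card ≤ M
    rw [smul_eq_mul] at a
    have c := Nat.mul_le_mul M1 b
    have := Nat.mul_le_mul_left s a
    nlinarith
  set Big := (Cum I n).filter fun w => ¬ (runs o w (2 * s + 1)).card ≤ M with hBig
  set G : Wd → Finset ℕ := fun w => (runs o w (2 * s + 1)).filter fun p =>
    5 * I (del s' p w) + s' * (runs o w (2 * s + 1)).card ≤ 5 * I w with hG
  have v : ∀ w ∈ Big, Valid w ∧ I w ≤ n := fun w hw => h.mem.1 (mem_filter.1 hw).1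
  have stG : ∀ w, ∀ p ∈ G w, St o w p (2 * s + 1) := fun w p hp =>
    (mem_runs (by omega)).1 (mem_filter.1 hp).1
  have dG : ∀ w ∈ Big, ∀ p ∈ G w, I (del s' p w) + 4 * (A * q) ≤ n := fun w hw p hp => by
    have a := (mem_filter.1 hp).2
    have b := (mem_filter.1 hw).2
    have c := (v w hw).2
    have d := Nat.mul_le_mul_left s' (show M + 1 ≤ (runs o w (2 * s + 1)).card by omega)
    have e := Nat.mul_le_mul_right (M + 1) (show s ≤ 3 * s' by omega)
    rw [mul_assoc] at e M2
    omega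
  have p2 : ∑ w ∈ Big, (runs o w (2 * s + 1)).card ≤ 2 * (Big.sigma G).card := by
    rw [card_sigma, mul_sum]
    exact sum_le_sum fun w hw => h.half (o := o) (s := s') _ (v w hw).1 (by omega)
      fun p hp => ((mem_runs (by omega)).1 hp).mono (by omega)
  have p3 : s * (2 * (Big.sigma G).card) ≤ 60 * A * q * (Cum I n).card := by
    rcases (Big.sigma G).eq_empty_or_nonempty with he | ⟨x, hx⟩
    · simp [he]
    have hx' := dG _ (mem_sigma.1 hx).1 _ (mem_sigma.1 hx).2
    set m := n - 4 * (A * q) with hm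
    have a : (Big.sigma G).card ≤ ∑ u ∈ Cum I m, (runs o u (2 * s' + 1)).card := by
      rw [← card_sigma]
      refine card_le_card_of_injOn (fun x => ⟨del s' x.2 x.1, x.2⟩) (fun x hx => ?_)
        fun x hx y hy e => ?_
      · obtain ⟨x1, x2⟩ := mem_sigma.1 (mem_coe.1 hx)
        have := dG _ x1 _ x2
        exact mem_coe.2 (mem_sigma.2 ⟨h.mem.2 ⟨valid_del (v _ x1).1 ((stG _ _ x2).mono (by omega)),
          by simp only; omega⟩, (mem_runs (by omega)).2
            (st_del (v _ x1).1 ((stG _ _ x2).mono (by omega)) (by omega))⟩)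
      · obtain ⟨x1, x2⟩ := mem_sigma.1 (mem_coe.1 hx)
        obtain ⟨y1, y2⟩ := mem_sigma.1 (mem_coe.1 hy)
        obtain ⟨e1, e2⟩ := Sigma.mk.inj e
        have e4 := eq_of_heq e2
        have s2 := stG _ _ y2
        rw [← e4] at s2 e1
        exact Sigma.ext (del_inj (v _ x1).1 (v _ y1).1 ((stG _ _ x2).mono (by omega))
          (s2.mono (by omega)) e1) e2
    have b := ih s' (by omega) (by omega) m
    have c := hd 4 m n (by rw [← hqd]; omega)
    have d := Nat.mul_le_mul_right (Cum I m).card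
      (Nat.mul_le_mul_left (120 * A) (qq_mono (show m ≤ n by omega)))
    have e := Nat.mul_le_mul (show s ≤ 3 * s' by omega) a
    have f := Nat.mul_le_mul_left (A * q) c
    rw [← hqd] at d
    nlinarith
  have := Nat.mul_le_mul_left s p2
  nlinarith

end

end Pool.Agent.MP_d5eec5_gt.H48
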