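import Mathlib

/-! Cutting words of arcs in the twice punctured plane: the interface of the counting part.
Letters: `0` the ray left of the tail, `1` the segment from tail to head, `2` the ray right of the
head. A corner is named by the letter `o` that does not touch it (`1` is the corner at infinity). -/

namespace Pool.Agent.MP_d5eec5_gt.H48

abbrev Wd := List (Fin 3)

/-- a nonempty reduced cutting word -/
def Valid (w : Wd) : Prop := w.head? = some 2 ∧ w.getLast? = some 0 ∧ w.IsChain (· ≠ ·)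

/-- a run of the corner `o` starts at `p` and has at least `l` letters -/
def St (o : Fin 3) (w : Wd) (p l : ℕ) : Prop :=
  p + l ≤ w.length ∧ (p = 0 ∨ w[p - 1]? = some o) ∧ ∀ i < l, w[p + i]? ≠ some o

instance (o : Fin 3) (w : Wd) (p l : ℕ) : Decidable (St o w p l) := by
  unfold St; infer_instance

/-- the starts of the runs with at least `l` letters -/
def runs (o : Fin 3) (w : Wd) (l : ℕ) : Finset ℕ :=
  (Finset.range w.length).filter fun p => St o w p l

/-- delete `s` full turns from the run that starts at `p` -/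
def del (s p : ℕ) (w : Wd) : Wd := w.take (p + 1) ++ w.drop (p + 1 + 2 * s)

/-- positions `i + 1`, `j + 1` carry the same letter and are turning points of opposite kind -/
def Opp (w : Wd) (i j : ℕ) : Prop :=
  i + 2 < w.length ∧ j + 2 < w.length ∧ w[i + 1]? = w[j + 1]? ∧ w[i]? ≠ w[i + 2]? ∧
    w[j]? ≠ w[j + 2]? ∧ (w[i]? = w[j]? ↔ (i + j) % 2 = 1)

/-- the geometric input about the least number `I` of crossings -/
structure Geo (I : Wd → ℕ) : Prop where
  up : ∀ w, Valid w → I w ≤ (w.length + 1) ^ 2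
  K : ∀ (o : Fin 3) (w : Wd) (s : ℕ) (S : Finset ℕ), Valid w → 1 ≤ s →
    (∀ p ∈ S, St o w p (2 * s + 1)) → ∃ κ : ℕ → ℕ → ℕ,
      (∀ p ∈ S, ∀ p' ∈ S, p ≠ p' → s ≤ κ p p' + κ p' p) ∧
      ∀ p ∈ S, I (del s p w) + 1 + ∑ p' ∈ S.erase p, κ p p' ≤ I w
  E : ∀ (o : Fin 3) (w : Wd) (r : ℕ), Valid w → r ≤ (runs o w 1).card → ∃ R : Finset ℕ,
    R.card = r ∧ ∀ p ∈ R, ∀ s : ℕ, ∃ w', Valid w' ∧ St o w' p (2 * s + 1) ∧ del s p w' = w ∧
      I w' + (if o = 1 then s else 0) ≤ I w + (2 * r + (if o = 1 then 0 else 1)) * s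
  SZ : ∀ (w : Wd) (A B : Finset ℕ), Valid w → (∀ i ∈ A, ∀ j ∈ B, Opp w i j) →
    A.card * B.card ≤ I w

/-- the average number of letters `1` over the words with `I w = n` -/
def Count : Prop :=
  ∀ I : Wd → ℕ, Geo I → (∀ n, {w | Valid w ∧ I w = n}.Finite) ∧
    ∃ c C : ℝ, 0 < c ∧ ∃ N : ℕ, ∀ n ≥ N, ∀ F : Finset Wd, (∀ w, w ∈ F ↔ Valid w ∧ I w = n) →
      F.Nonempty ∧ c * (√n * Real.log n) * F.card ≤ ∑ w ∈ F, (w.count 1 : ℝ) ∧
        ∑ w ∈ F, (w.count 1 : ℝ) ≤ C * (√n * Real.log n) * F.card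

end Pool.Agent.MP_d5eec5_gt.H48
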